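import Pool.Agent.Lib.MP_ce9680_co.Cone

/-!
The base case and the main induction.
-/

namespace Pool.Agent.MPce9680

open MvPolynomial

variable {m : ℕ}

/-- `∏_{p ≤ i ≤ q} (1 - x_i)` -/
noncomputable def seg (p q : Fin (m + 1)) : Poly m := ∏ i ∈ Finset.Icc p q, (1 - X i)

lemma piBar_one_sub_X (j : Fin m) :
    piBar j (1 - X j.castSucc : Poly m) = (1 - X j.castSucc) * (1 - X j.succ) := by
  apply piBar_unique
  simp only [sw_sub, sw_one, sw_X, s_castSucc]
  ring

lemma inner {d : ℕ} (h : Poly m) (p : Fin (m + 1)) (hX : X p * h ∈ P m d) (q : Fin (m + 1)) :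
    p ≤ q → (∀ j : Fin m, p ≤ j.castSucc → j.succ ≤ q → sw j h = h) →
      h * (1 - seg p q) ∈ P m d := by
  induction q using Fin.induction with
  | zero =>
    intro hpq _
    have : p = 0 := le_antisymm hpq (Fin.zero_le _)
    subst this
    have : h * (1 - seg 0 0) = X 0 * h := by
      simp [seg]; ring
    rw [this]; exact hX
  | succ j IH =>
    intro hpq hh
    by_cases hp : p = j.succ
    · subst hp
      have : h * (1 - seg j.succ j.succ) = X j.succ * h := by
        simp [seg]; ring
      rw [this]; exact hX
    · have hpj : p ≤ j.castSucc := by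
        rw [Fin.le_def] at hpq ⊢
        have : p.val ≠ j.val + 1 := fun h => hp (Fin.ext (by simpa using h))
        simp at hpq ⊢; omega
      have IH' := IH hpj (fun k h1 h2 => hh k h1 (h2.trans (Fin.castSucc_lt_succ (i := j)).le))
      have hhj := hh j hpj le_rfl
      have key : piBar j (h * (1 - seg p j.castSucc)) = h * (1 - seg p j.succ) := by
        rw [piBar_mul_of_sw _ _ _ hhj]
        congr 1
        have e1 : seg p j.castSucc = (∏ i ∈ Finset.Ico p j.castSucc, (1 - X i)) *
            (1 - X j.castSucc : Poly m) := by
          unfold seg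
          rw [← Finset.Ico_insert_right hpj, Finset.prod_insert (by simp), mul_comm]
        have e2 : seg p j.succ = (∏ i ∈ Finset.Ico p j.castSucc, (1 - X i)) *
            ((1 - X j.castSucc) * (1 - X j.succ) : Poly m) := by
          unfold seg
          have : Finset.Icc p j.succ = insert j.succ (insert j.castSucc
              (Finset.Ico p j.castSucc)) := by
            ext i
            simp only [Finset.mem_Icc, Finset.mem_insert, Finset.mem_Ico, Fin.le_def, Fin.lt_def,
              Fin.ext_iff, Fin.val_succ, Fin.val_castSucc] at *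
            omega
          rw [this, Finset.prod_insert, Finset.prod_insert (by simp)]
          · ring
          · simp only [Finset.mem_insert, Finset.mem_Ico, not_or, not_and, not_lt]
            exact ⟨(castSucc_ne_succ j).symm, fun _ => (Fin.castSucc_lt_succ (i := j)).le⟩
        have hsw : sw j (∏ i ∈ Finset.Ico p j.castSucc, (1 - X i) : Poly m) =
            ∏ i ∈ Finset.Ico p j.castSucc, (1 - X i) := by
          unfold sw
          rw [map_prod]
          refine Finset.prod_congr rfl fun i hi => ?_
          rw [Finset.mem_Ico] at hi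
          have h1 : i ≠ j.castSucc := ne_of_lt hi.2
          have h2 : i ≠ j.succ := ne_of_lt (hi.2.trans (Fin.castSucc_lt_succ (i := j)))
          simp [s_of_ne j i h1 h2]
        rw [sub_eq_add_neg, piBar_add, piBar_neg, piBar_one, e1, piBar_mul_of_sw _ _ _ hsw,
          piBar_one_sub_X, e2]
        ring
      rw [← key]
      exact P_piBar j IH'

lemma mono_add_single (μ : Fin (m + 1) → ℕ) (p : Fin (m + 1)) :
    mono (μ + Pi.single p 1) = X p * mono μ := by
  unfold mono
  simp only [Pi.add_apply, pow_add, Finset.prod_mul_distrib]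
  rw [mul_comm]
  congr 1
  rw [Finset.prod_eq_single p]
  · simp
  · intro b _ hb; simp [Pi.single_eq_of_ne hb]
  · intro h; exact absurd (Finset.mem_univ _) h

lemma prod_compl_mem (N : ℕ) : ∀ (μ : Fin (m + 1) → ℕ) (R : Finset (Fin (m + 1))),
    R.card = N → Antitone μ →
    (∀ j : Fin m, j.succ ∈ R → μ j.castSucc = μ j.succ → j.castSucc ∈ R) →
    mono μ * ∏ i ∈ R, (1 - X i) ∈ P m (∑ i, μ i) := by
  induction N using Nat.strong_induction_on with
  | _ N IH =>
    intro μ R hN hμ hR
    rcases R.eq_empty_or_nonempty with rfl | ⟨j0, hj0⟩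
    · rw [Finset.prod_empty, mul_one, ← lascoux_antitone μ hμ]
      exact lascoux_mem μ
    · classical
      set v := μ j0 with hv
      have hne : (R.filter (fun i => μ i = v)).Nonempty :=
        ⟨j0, by rw [Finset.mem_filter]; exact ⟨hj0, hv.symm⟩⟩
      set p := (R.filter (fun i => μ i = v)).min' hne with hp
      set q := (R.filter (fun i => μ i = v)).max' hne with hq
      have hpm := Finset.min'_mem _ hne
      have hqm := Finset.max'_mem _ hne
      rw [← hp, Finset.mem_filter] at hpm
      rw [← hq, Finset.mem_filter] at hqm
      have hpq : p ≤ q := Finset.min'_le _ _ (Finset.max'_mem _ hne)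
      have hval : ∀ i, p ≤ i → i ≤ q → μ i = v := by
        intro i h1 h2
        have := hμ h1
        have := hμ h2
        have := hpm.2
        have := hqm.2
        omega
      have hmemR : ∀ k : ℕ, ∀ i : Fin (m + 1), i.val + k = q.val → p ≤ i → i ∈ R := by
        intro k
        induction k with
        | zero =>
          intro i hi _
          have : i = q := Fin.ext (by omega)
          rw [this]; exact hqm.1
        | succ k ihk =>
          intro i hi hpi
          have hlt : i.val + 1 ≤ q.val := by omega
          have hq' := q.isLt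
          let j : Fin m := ⟨i.val, by omega⟩
          have hjc : j.castSucc = i := Fin.ext (by simp [j])
          have h1 : p ≤ j.succ := by
            rw [Fin.le_def] at hpi ⊢; simp [j]; omega
          have h2 : j.succ ≤ q := by
            rw [Fin.le_def]; simp [j]; omega
          have h3 : j.succ ∈ R := ihk j.succ (by simp [j]; omega) h1
          have h4 : μ j.castSucc = μ j.succ := by
            rw [hval j.succ h1 h2, hjc, hval i hpi (by rw [Fin.le_def]; omega)]
          rw [← hjc]; exact hR j h3 h4
      have hfil : R.filter (fun i => μ i = v) = Finset.Icc p q := by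
        ext i
        rw [Finset.mem_filter, Finset.mem_Icc]
        constructor
        · rintro ⟨h1, h2⟩
          exact ⟨Finset.min'_le _ _ (by simp [h1, h2]), Finset.le_max' _ _ (by simp [h1, h2])⟩
        · rintro ⟨h1, h2⟩
          refine ⟨hmemR (q.val - i.val) i ?_ h1, hval i h1 h2⟩
          rw [Fin.le_def] at h2; omega
      set R' := R.filter (fun i => ¬ μ i = v) with hR'
      have hcard : R'.card < N := by
        rw [← hN]
        apply Finset.card_lt_card
        rw [Finset.ssubset_iff_of_subset (Finset.filter_subset _ _)]
        exact ⟨j0, hj0, by simp [hv]⟩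
      have hsplit : ∏ i ∈ R, (1 - X i : Poly m) = seg p q * ∏ i ∈ R', (1 - X i) := by
        rw [seg, ← hfil, Finset.prod_filter_mul_prod_filter_not]
      have hR'1 : ∀ j : Fin m, j.succ ∈ R' → μ j.castSucc = μ j.succ → j.castSucc ∈ R' := by
        intro j h1 h2
        rw [hR', Finset.mem_filter] at h1 ⊢
        exact ⟨hR j h1.1 h2, by rw [h2]; exact h1.2⟩
      have m1 := IH _ hcard μ R' rfl hμ hR'1
      -- the second term
      have hanti : Antitone (μ + Pi.single p 1 : Fin (m + 1) → ℕ) := by
        rw [Fin.antitone_iff_succ_le]
        intro j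
        have hj := hμ (Fin.castSucc_lt_succ (i := j)).le
        simp only [Pi.add_apply]
        by_cases hjp : j.succ = p
        · have hc : j.castSucc ≠ p := by rw [← hjp]; exact castSucc_ne_succ j
          rw [Pi.single_eq_of_ne hc, hjp, Pi.single_eq_same]
          rw [hjp] at hj
          have : μ j.castSucc ≠ μ p := by
            intro heq
            have hmem : j.castSucc ∈ R := hR j (by rw [hjp]; exact hpm.1) (by rw [hjp]; exact heq)
            have : p ≤ j.castSucc := Finset.min'_le _ _ (by
              rw [Finset.mem_filter]; exact ⟨hmem, by rw [heq]; exact hpm.2⟩)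
            rw [← hjp, Fin.le_def] at this
            simp at this
          omega
        · rw [Pi.single_eq_of_ne hjp]
          omega
      have hR'2 : ∀ j : Fin m, j.succ ∈ R' →
          (μ + Pi.single p 1 : Fin (m + 1) → ℕ) j.castSucc =
            (μ + Pi.single p 1 : Fin (m + 1) → ℕ) j.succ → j.castSucc ∈ R' := by
        intro j h1 h2
        have h1' := h1
        rw [hR', Finset.mem_filter] at h1'
        have hsp : j.succ ≠ p := by
          intro h; rw [h] at h1'; exact h1'.2 hpm.2
        simp only [Pi.add_apply, Pi.single_eq_of_ne hsp, add_zero] at h2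
        by_cases hcp : j.castSucc = p
        · rw [hcp, Pi.single_eq_same] at h2
          have := hμ (Fin.castSucc_lt_succ (i := j)).le
          rw [hcp] at this
          omega
        · rw [Pi.single_eq_of_ne hcp, add_zero] at h2
          exact hR'1 j h1 h2
      have m2 := IH _ hcard (μ + Pi.single p 1) R' rfl hanti hR'2
      have hsum : ∑ i, (μ + Pi.single p 1 : Fin (m + 1) → ℕ) i = ∑ i, μ i + 1 := by
        simp only [Pi.add_apply, Finset.sum_add_distrib]
        congr 1
        simp
      rw [hsum, mono_add_single, mul_assoc] at m2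
      have hinv : ∀ j : Fin m, p ≤ j.castSucc → j.succ ≤ q →
          sw j (mono μ * ∏ i ∈ R', (1 - X i)) = mono μ * ∏ i ∈ R', (1 - X i) := by
        intro j h1 h2
        have v1 := hval j.castSucc h1 ((Fin.castSucc_lt_succ (i := j)).le.trans h2)
        have v2 := hval j.succ (h1.trans (Fin.castSucc_lt_succ (i := j)).le) h2
        rw [sw_mul, sw_mono, comp_s_of_eq j μ (by rw [v1, v2])]
        congr 1
        unfold sw
        rw [map_prod]
        refine Finset.prod_congr rfl fun i hi => ?_
        rw [hR', Finset.mem_filter] at hi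
        have n1 : i ≠ j.castSucc := by rintro rfl; exact hi.2 v1
        have n2 : i ≠ j.succ := by rintro rfl; exact hi.2 v2
        simp [s_of_ne j i n1 n2]
      have m3 := inner _ p m2 q hpq hinv
      have m4 := add_mem m1 (P_neg m3)
      have : mono μ * ∏ i ∈ R', (1 - X i) + -((mono μ * ∏ i ∈ R', (1 - X i)) * (1 - seg p q)) =
          mono μ * ∏ i ∈ R, (1 - X i : Poly m) := by
        rw [hsplit]; ring
      rw [this] at m4
      exact m4

lemma base_mem (lam a : Fin (m + 1) → ℕ) (hl : Antitone lam) (ha : ∀ i, a i ≤ 1)
    (h : ∀ j : Fin m, lam j.castSucc = lam j.succ → a j.succ ≤ a j.castSucc) :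
    gfac a * mono lam ∈ P m (∑ i, lam i + ∑ i, a i) := by
  classical
  have h1 : gfac a * mono lam = mono (lam + a) *
      ∏ i ∈ Finset.univ.filter (fun i => a i = 0), (1 - X i) := by
    rw [Finset.prod_filter]
    unfold gfac mono
    rw [← Finset.prod_mul_distrib, ← Finset.prod_mul_distrib]
    refine Finset.prod_congr rfl fun i _ => ?_
    by_cases h0 : a i = 0
    · simp [h0]; ring
    · have : a i = 1 := by have := ha i; omega
      simp [this, pow_add]; ring
  rw [h1, ← Finset.sum_add_distrib]
  refine prod_compl_mem _ (lam + a) _ rfl ?_ ?_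
  · rw [Fin.antitone_iff_succ_le]
    intro j
    have := hl (Fin.castSucc_lt_succ (i := j)).le
    have h2 := h j
    have := ha j.castSucc
    have := ha j.succ
    simp only [Pi.add_apply]
    by_cases h3 : lam j.castSucc = lam j.succ
    · have := h2 h3; omega
    · omega
  · intro j h2 h3
    simp only [Finset.mem_filter, Finset.mem_univ, true_and, Pi.add_apply] at *
    have := hl (Fin.castSucc_lt_succ (i := j)).le
    have := ha j.castSucc
    omega

/-- Main induction. -/
theorem main_ind (lam : Fin (m + 1) → ℕ) (hl : Antitone lam) (w : List (Fin m)) :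
    ∀ a : Fin (m + 1) → ℕ, (∀ i, a i ≤ 1) →
      op a (gfac a * w.foldr piBar (mono lam)) ∈ P m (∑ i, lam i + ∑ i, a i) := by
  induction w with
  | nil =>
    intro a ha
    simp only [List.foldr_nil]
    by_cases h : ∀ j : Fin m, lam j.castSucc = lam j.succ → a j.succ ≤ a j.castSucc
    · exact P_op a (base_mem lam a hl ha h)
    · push Not at h
      obtain ⟨j, h1, h2⟩ := h
      rw [op_ascent a j h2, LinearMap.comp_apply, piL_apply,
        gfac_piBar_asc j a (by have := ha j.succ; omega) (by omega) _
          (by rw [sw_mono, comp_s_of_eq j lam h1]), map_zero]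
      exact zero_mem _
  | cons j w IH =>
    intro a ha
    simp only [List.foldr_cons]
    rcases lt_trichotomy (a j.castSucc) (a j.succ) with h | h | h
    · rw [op_ascent a j h, LinearMap.comp_apply, piL_apply,
        gfac_piBar_asc j a (by have := ha j.succ; omega) (by omega) _ (sw_piBar j _), map_zero]
      exact zero_mem _
    · obtain ⟨k, hk⟩ := op_equal a j h
      have := LinearMap.congr_fun hk (gfac a * w.foldr piBar (mono lam))
      simp only [LinearMap.comp_apply, piL_apply] at this
      rw [gfac_piBar_equal j a h, this]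
      exact P_piBar k (IH a ha)
    · have h0 : a j.succ = 0 := by have := ha j.castSucc; omega
      have h1 : a j.castSucc ≠ 0 := by omega
      rw [gfac_piBar_desc j a h1 h0, map_add]
      refine add_mem ?_ (IH a ha)
      have hasc : (a ∘ s j) j.castSucc < (a ∘ s j) j.succ := by
        simpa [Function.comp, s_castSucc, s_succ] using h
      have h2 := op_ascent (a ∘ s j) j hasc
      rw [comp_s_comp_s] at h2
      have h3 := LinearMap.congr_fun h2 (gfac (a ∘ s j) * w.foldr piBar (mono lam))
      simp only [LinearMap.comp_apply, piL_apply] at h3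
      rw [← h3, ← sum_comp_s j a]
      exact IH (a ∘ s j) (fun i => ha _)

/-- Every Lascoux polynomial is obtained from a dominant monomial by a word in the operators. -/
lemma lascoux_word (α : Fin (m + 1) → ℕ) : ∃ (lam : Fin (m + 1) → ℕ) (w : List (Fin m)),
    Antitone lam ∧ ∑ i, lam i = ∑ i, α i ∧ lascoux α = w.foldr piBar (mono lam) := by
  induction hN : inv α using Nat.strong_induction_on generalizing α with
  | _ N IH =>
    subst hN
    by_cases hex : ∃ j : Fin m, α j.castSucc < α j.succ
    · obtain ⟨j, hj⟩ := hex
      obtain ⟨lam, w, h1, h2, h3⟩ := IH _ (inv_lt j α hj) _ rfl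
      refine ⟨lam, j :: w, h1, by rw [h2, sum_comp_s], ?_⟩
      rw [List.foldr_cons, ← h3, lascoux_ascent α j hj]
    · have h := antitone_of_no_ascent α hex
      exact ⟨α, [], h, rfl, by simp [lascoux_antitone α h]⟩

theorem gfac_mul_lascoux_mem (α a : Fin (m + 1) → ℕ) (ha : ∀ i, a i ≤ 1) (hanti : Antitone a) :
    gfac a * lascoux α ∈ P m (∑ i, α i + ∑ i, a i) := by
  obtain ⟨lam, w, h1, h2, h3⟩ := lascoux_word α
  have := main_ind lam h1 w a ha
  rw [op_antitone a hanti, ← h3, h2] at this
  exact this

end Pool.Agent.MPce9680
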