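import Pool.Agent.Lib.MP_ce9680_co.Tri

/-!
Lascoux polynomials form a `ℤ`-basis; lowest degree components.
-/

namespace Pool.Agent.MPce9680

open MvPolynomial

variable {m : ℕ}

/-- order of triangularity -/
def Low (γ β : Fin (m + 1) → ℕ) : Prop :=
  D β < D γ ∨ (D γ = D β ∧ (Q γ < Q β ∨ (Q γ = Q β ∧ inv γ < inv β)))

theorem lascoux_tri (K : ℕ) (β : Fin (m + 1) → ℕ) (hK : ∀ i, β i ≤ K) :
    lascoux β - mono β ∈ Sp (fun δ => (∀ i, δ i ≤ K) ∧ Low δ β) := by
  induction hN : inv β using Nat.strong_induction_on generalizing β with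
  | _ N IH =>
    subst hN
    by_cases hex : ∃ j : Fin m, β j.castSucc < β j.succ
    · obtain ⟨j, hj⟩ := hex
      have hinv := inv_comp_s j β
      rw [if_pos hj, if_neg (by omega)] at hinv
      have hK' : ∀ i, (β ∘ s j) i ≤ K := fun i => hK _
      have ih := IH _ (inv_lt j β hj) (β ∘ s j) hK' rfl
      have hdesc : (β ∘ s j) j.succ < (β ∘ s j) j.castSucc := by
        simpa [Function.comp, s_castSucc, s_succ] using hj
      have h1 := piBar_mono_desc K j (β ∘ s j) hK' hdesc.le
      rw [comp_s_comp_s] at h1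
      have h2 : piBar j (lascoux (β ∘ s j) - mono (β ∘ s j)) ∈
          Sp (fun δ => (∀ i, δ i ≤ K) ∧ Low δ β) := by
        refine piBar_Sp j ?_ ih
        rintro γ ⟨hγK, hγ⟩
        have hD := D_comp j β
        have hQ := Q_comp j β
        have hDg := D_comp j γ
        have hQg := Q_comp j γ
        have hinvg := inv_comp_s j γ
        have key : ∀ δ, A0 K γ δ ∨ δ = γ ∘ s j → (∀ i, δ i ≤ K) ∧ Low δ β := by
          intro δ hδ
          rcases hδ with ⟨hδK, hδ⟩ | rfl
          · refine ⟨hδK, ?_⟩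
            unfold Low at hγ ⊢
            rcases hδ with hδ | ⟨hδ1, hδ2 | rfl⟩
            · left
              rcases hγ with hγ | ⟨hγ1, _⟩ <;> omega
            · rcases hγ with hγ | ⟨hγ1, hγ2 | ⟨hγ2, hγ3⟩⟩
              · left; omega
              · right; exact ⟨by omega, Or.inl (by omega)⟩
              · right; exact ⟨by omega, Or.inl (by omega)⟩
            · rcases hγ with hγ | ⟨hγ1, hγ2 | ⟨hγ2, hγ3⟩⟩
              · left; omega
              · right; exact ⟨by omega, Or.inl (by omega)⟩
              · right; exact ⟨by omega, Or.inr ⟨by omega, by omega⟩⟩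
          · refine ⟨fun i => hγK _, ?_⟩
            unfold Low at hγ ⊢
            rw [hDg, hQg]
            rcases hγ with hγ | ⟨hγ1, hγ2 | ⟨hγ2, hγ3⟩⟩
            · left; omega
            · right; exact ⟨by omega, Or.inl (by omega)⟩
            · right
              refine ⟨by omega, Or.inr ⟨by omega, ?_⟩⟩
              split_ifs at hinvg <;> omega
        by_cases hg : γ j.succ ≤ γ j.castSucc
        · have h3 := piBar_mono_desc K j γ hγK hg
          have h4 : piBar j (mono γ) = (piBar j (mono γ) - mono (γ ∘ s j)) + mono (γ ∘ s j) := by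
            ring
          rw [h4]
          exact add_mem (Sp_mono (fun δ hδ => key δ (Or.inl hδ)) h3)
            (mono_mem_Sp (key _ (Or.inr rfl)))
        · exact Sp_mono (fun δ hδ => key δ (Or.inl hδ)) (piBar_mono_asc K j γ hγK (by omega))
      have h3 : lascoux β - mono β = piBar j (lascoux (β ∘ s j) - mono (β ∘ s j)) +
          (piBar j (mono (β ∘ s j)) - mono β) := by
        rw [lascoux_ascent β j hj, sub_eq_add_neg (lascoux (β ∘ s j)), piBar_add, piBar_neg]
        ring
      rw [h3]
      refine add_mem h2 (Sp_mono ?_ h1)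
      rintro δ ⟨hδK, hδ⟩
      refine ⟨hδK, ?_⟩
      have hD := D_comp j β
      have hQ := Q_comp j β
      unfold Low
      rcases hδ with hδ | ⟨hδ1, hδ2 | rfl⟩
      · left; omega
      · right; exact ⟨by omega, Or.inl (by omega)⟩
      · right; exact ⟨by omega, Or.inr ⟨by omega, by omega⟩⟩
    · rw [lascoux_antitone β (antitone_of_no_ascent β hex), sub_self]
      exact zero_mem _

lemma exists_bound (β : Fin (m + 1) → ℕ) : ∃ K, ∀ i, β i ≤ K :=
  ⟨∑ i, β i, fun i => Finset.single_le_sum (fun _ _ => Nat.zero_le _) (Finset.mem_univ i)⟩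

lemma not_low_self (β : Fin (m + 1) → ℕ) : ¬ Low β β := by
  unfold Low; omega

lemma coeff_lascoux (β : Fin (m + 1) → ℕ) (v : Fin (m + 1) →₀ ℕ) (hv : ¬ Low v β) :
    coeff v (lascoux β) = if fs β = v then 1 else 0 := by
  obtain ⟨K, hK⟩ := exists_bound β
  have h1 := lascoux_tri K β hK
  have h2 := coeff_Sp h1 v (fun h => hv h.2)
  rw [coeff_sub, coeff_mono, sub_eq_zero] at h2
  exact h2

/-- key for the triangularity order -/
def key (β : Fin (m + 1) → ℕ) : ℕᵒᵈ ×ₗ (ℕ ×ₗ ℕ) :=
  toLex (OrderDual.toDual (D β), toLex (Q β, inv β))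

lemma low_iff (γ β : Fin (m + 1) → ℕ) : Low γ β ↔ key γ < key β := by
  unfold Low key
  rw [Prod.Lex.toLex_lt_toLex, Prod.Lex.toLex_lt_toLex]
  simp only [OrderDual.toDual_lt_toDual, OrderDual.toDual_inj]

theorem linearIndependent_lascoux :
    LinearIndependent ℤ (lascoux : (Fin (m + 1) → ℕ) → Poly m) := by
  rw [linearIndependent_iff]
  intro c hc
  by_contra hne
  obtain ⟨γ0, hγ0, hmax⟩ := Finset.exists_max_image c.support key
    (Finsupp.support_nonempty_iff.mpr hne)
  have h1 := congrArg (coeff (fs γ0)) hc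
  rw [Finsupp.linearCombination_apply, Finsupp.sum, coeff_sum, coeff_zero,
    Finset.sum_eq_single γ0] at h1
  · rw [coeff_smul, coeff_lascoux γ0 (fs γ0) (not_low_self γ0), if_pos rfl, smul_eq_mul,
      mul_one] at h1
    exact (Finsupp.mem_support_iff.mp hγ0) h1
  · intro γ hγ hne
    rw [coeff_smul, coeff_lascoux γ (fs γ0), if_neg (fun h => hne (fs_injective h)), smul_zero]
    intro hlow
    have : Low γ0 γ := hlow
    rw [low_iff] at this
    exact absurd (hmax γ hγ) (not_le_of_gt this)
  · intro h; exact absurd hγ0 h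

lemma D_le (K : ℕ) (β : Fin (m + 1) → ℕ) (hK : ∀ i, β i ≤ K) : D β ≤ (m + 1) * K := by
  unfold D
  calc ∑ i, β i ≤ ∑ _i : Fin (m + 1), K := Finset.sum_le_sum fun i _ => hK i
    _ = (m + 1) * K := by simp

theorem mono_mem_span (K : ℕ) (β : Fin (m + 1) → ℕ) (hK : ∀ i, β i ≤ K) :
    mono β ∈ Submodule.span ℤ (Set.range (lascoux : (Fin (m + 1) → ℕ) → Poly m)) := by
  have h1 := lascoux_tri K β hK
  have h2 : mono β = lascoux β - (lascoux β - mono β) := by ring
  rw [h2]
  refine sub_mem (Submodule.subset_span ⟨β, rfl⟩) ?_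
  have h3 : Sp (fun δ => (∀ i, δ i ≤ K) ∧ Low δ β) ≤
      Submodule.span ℤ (Set.range (lascoux : (Fin (m + 1) → ℕ) → Poly m)) := by
    refine Submodule.span_le.mpr ?_
    rintro f ⟨δ, ⟨hδK, hδ⟩, rfl⟩
    exact mono_mem_span K δ hδK
  exact h3 h1
termination_by ((m + 1) * K - D β, Q β, inv β)
decreasing_by
  have hd1 := D_le K δ hδK
  have hd2 := D_le K β hK
  unfold Low at hδ
  rcases hδ with h | ⟨h, h' | ⟨h', h''⟩⟩
  · exact Prod.Lex.left _ _ (by omega)
  · rw [h]; exact Prod.Lex.right _ (Prod.Lex.left _ _ h')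
  · rw [h, h']; exact Prod.Lex.right _ (Prod.Lex.right _ h'')

theorem span_lascoux :
    ⊤ ≤ Submodule.span ℤ (Set.range (lascoux : (Fin (m + 1) → ℕ) → Poly m)) := by
  intro f _
  rw [f.as_sum]
  refine sum_mem fun v _ => ?_
  obtain ⟨K, hK⟩ := exists_bound (⇑v)
  have h1 := mono_mem_span K (⇑v) hK
  rw [mono_eq, fs_coe] at h1
  have h2 : monomial v (coeff v f) = (coeff v f) • monomial v (1 : ℤ) := by
    rw [smul_monomial, smul_eq_mul, mul_one]
  rw [h2]
  exact Submodule.smul_mem _ _ h1

/-- The Lascoux basis. -/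
noncomputable def lascouxBasis (m : ℕ) :
    Module.Basis (Fin (m + 1) → ℕ) ℤ (MvPolynomial (Fin (m + 1)) ℤ) :=
  Module.Basis.mk linearIndependent_lascoux span_lascoux

lemma lascouxBasis_apply (α : Fin (m + 1) → ℕ) : lascouxBasis m α = lascoux α :=
  Module.Basis.mk_apply _ _ _

/-- coefficients in the Lascoux basis of an element of the cone -/
lemma repr_of_mem_P {d : ℕ} {f : Poly m} (hf : f ∈ P m d) (γ : Fin (m + 1) → ℕ) :
    0 ≤ (-1 : ℤ) ^ (∑ i, γ i + d) * (lascouxBasis m).repr f γ := by
  induction hf using AddSubmonoid.closure_induction with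
  | mem x hx =>
    obtain ⟨δ, rfl⟩ := hx
    rw [← lascouxBasis_apply, map_smul, Module.Basis.repr_self, Finsupp.smul_apply,
      Finsupp.single_apply]
    split_ifs with h
    · subst h
      rw [smul_eq_mul, mul_one, ← mul_pow]
      simp
    · simp
  | zero => simp
  | add x y _ _ hx hy =>
    rw [map_add, Finsupp.add_apply, mul_add]
    exact add_nonneg hx hy

/-- all monomials have degree at least `n` -/
def GE (n : ℕ) (f : Poly m) : Prop := ∀ v : Fin (m + 1) →₀ ℕ, v.degree < n → coeff v f = 0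

lemma GE_mul {n k : ℕ} {f g : Poly m} (hf : GE n f) (hg : GE k g) : GE (n + k) (f * g) := by
  intro v hv
  rw [coeff_mul]
  refine Finset.sum_eq_zero fun x hx => ?_
  rw [Finset.HasAntidiagonal.mem_antidiagonal] at hx
  have : x.1.degree + x.2.degree = v.degree := by rw [← hx, map_add]
  rcases Nat.lt_or_ge x.1.degree n with h | h
  · rw [hf _ h, zero_mul]
  · rw [hg _ (by omega), mul_zero]

lemma GE_lascoux (α : Fin (m + 1) → ℕ) : GE (∑ i, α i) (lascoux α) := by
  intro v hv
  have hd : v.degree = D ⇑v := by rw [← degree_fs, fs_coe]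
  have hD : D (⇑v) < D α := by rw [← hd]; exact hv
  rw [coeff_lascoux, if_neg]
  · rintro rfl
    exact absurd hD (by simp [D])
  · unfold Low
    omega

lemma coeff_self_lascoux (α : Fin (m + 1) → ℕ) : coeff (fs α) (lascoux α) = 1 := by
  rw [coeff_lascoux α (fs α) (not_low_self α), if_pos rfl]

lemma GE_monomial (v : Fin (m + 1) →₀ ℕ) : GE v.degree (monomial v 1 : Poly m) := by
  intro w hw
  rw [coeff_monomial, if_neg]
  rintro rfl
  exact lt_irrefl _ hw

lemma coeff_zero_prod (R : Finset (Fin (m + 1))) :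
    coeff 0 (∏ i ∈ R, (1 - X i) : Poly m) = 1 := by
  have : coeff 0 (∏ i ∈ R, (1 - X i) : Poly m) = constantCoeff (∏ i ∈ R, (1 - X i) : Poly m) := rfl
  rw [this, map_prod]
  simp

lemma gfac_split (a : Fin (m + 1) → ℕ) (ha : ∀ i, a i ≤ 1) :
    gfac a = mono a * ∏ i ∈ Finset.univ.filter (fun i => a i = 0), (1 - X i) := by
  rw [Finset.prod_filter]
  unfold gfac mono
  rw [← Finset.prod_mul_distrib]
  refine Finset.prod_congr rfl fun i _ => ?_
  by_cases h0 : a i = 0
  · simp [h0]
  · have : a i = 1 := by have := ha i; omega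
    simp [this]

/-- lowest degree of the product -/
theorem lowest_degree (α a : Fin (m + 1) → ℕ) (ha : ∀ i, a i ≤ 1) :
    (∀ k < ∑ i, α i + ∑ i, a i, homogeneousComponent k (gfac a * lascoux α) = 0) ∧
      homogeneousComponent (∑ i, α i + ∑ i, a i) (gfac a * lascoux α) ≠ 0 := by
  have hsplit := gfac_split a ha
  set T : Poly m := ∏ i ∈ Finset.univ.filter (fun i => a i = 0), (1 - X i) with hT
  have hT0 : coeff 0 T = 1 := coeff_zero_prod _
  have hTGE : GE 0 T := fun v hv => absurd hv (Nat.not_lt_zero _)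
  have hT1 : GE 1 (T - 1) := by
    intro v hv
    have : v = 0 := by
      rw [← Finsupp.degree_eq_zero_iff]; omega
    subst this
    rw [coeff_sub, hT0]; simp
  have hm : GE (∑ i, a i) (mono a) := by
    rw [mono_eq]
    have := GE_monomial (fs a)
    rwa [degree_fs] at this
  have hGE : GE (∑ i, α i + ∑ i, a i) (gfac a * lascoux α) := by
    rw [hsplit]
    have := GE_mul (GE_mul hm hTGE) (GE_lascoux α)
    rwa [add_zero, add_comm] at this
  constructor
  · intro k hk
    ext v
    rw [coeff_homogeneousComponent, coeff_zero]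
    split_ifs with h
    · exact hGE v (by omega)
    · rfl
  · intro h0
    have h1 := congrArg (coeff (fs a + fs α)) h0
    rw [coeff_homogeneousComponent, coeff_zero, if_pos (by
      rw [map_add, degree_fs, degree_fs, add_comm]; rfl)] at h1
    have h2 : gfac a * lascoux α = monomial (fs a) 1 * lascoux α +
        monomial (fs a) 1 * ((T - 1) * lascoux α) := by
      rw [hsplit, mono_eq]; ring
    rw [h2, coeff_add, coeff_monomial_mul, coeff_monomial_mul, coeff_self_lascoux, one_mul,
      one_mul] at h1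
    have h3 := GE_mul hT1 (GE_lascoux α) (fs α) (by rw [degree_fs]; unfold D; omega)
    rw [h3] at h1
    norm_num at h1

end Pool.Agent.MPce9680
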