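import Pool.Agent.Lib.MP_ce9680_co.Rec

/-!
Lascoux polynomials and the cone of graded nonnegative combinations.
-/

namespace Pool.Agent.MPce9680

open MvPolynomial

variable {m : ℕ}

/-- The monomial `x^α`. -/
noncomputable def mono (α : Fin (m + 1) → ℕ) : Poly m := ∏ i, X i ^ α i

lemma sw_mono (j : Fin m) (α : Fin (m + 1) → ℕ) : sw j (mono α) = mono (α ∘ s j) := by
  unfold mono sw
  rw [map_prod, ← Equiv.prod_comp (s j)]
  refine Finset.prod_congr rfl fun i _ => ?_
  simp [Function.comp, s_s]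

lemma comp_s_of_eq (j : Fin m) (α : Fin (m + 1) → ℕ) (h : α j.castSucc = α j.succ) :
    α ∘ s j = α := by
  funext x
  simp only [Function.comp]
  by_cases h1 : x = j.castSucc
  · subst h1; rw [s_castSucc, h]
  by_cases h2 : x = j.succ
  · subst h2; rw [s_succ, h]
  rw [s_of_ne j x h1 h2]

lemma comp_s_comp_s (j : Fin m) (α : Fin (m + 1) → ℕ) : (α ∘ s j) ∘ s j = α := by
  funext x; simp [Function.comp, s_s]

lemma sum_comp_s (j : Fin m) (α : Fin (m + 1) → ℕ) : ∑ i, (α ∘ s j) i = ∑ i, α i :=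
  Equiv.sum_comp (s j) α

/-- The Lascoux polynomial. -/
noncomputable def lascoux (α : Fin (m + 1) → ℕ) : Poly m := rec piBar mono α

lemma zeroHecke_piBar : ZeroHecke (piBar (m := m)) where
  idem := piBar_idem
  comm := fun i j h x => piBar_comm i j h x
  braid := fun i j h x => piBar_braid i j h x

lemma lascoux_antitone (α : Fin (m + 1) → ℕ) (h : Antitone α) : lascoux α = mono α :=
  rec_antitone α h

lemma lascoux_ascent (α : Fin (m + 1) → ℕ) (j : Fin m) (h : α j.castSucc < α j.succ) :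
    lascoux α = piBar j (lascoux (α ∘ s j)) :=
  rec_ascent zeroHecke_piBar α j h

lemma piBar_lascoux_desc (α : Fin (m + 1) → ℕ) (j : Fin m) (h : α j.succ < α j.castSucc) :
    piBar j (lascoux α) = lascoux (α ∘ s j) := by
  rw [lascoux_ascent (α ∘ s j) j, comp_s_comp_s]
  simpa [Function.comp, s_castSucc, s_succ] using h

lemma piBar_lascoux_asc (α : Fin (m + 1) → ℕ) (j : Fin m) (h : α j.castSucc < α j.succ) :
    piBar j (lascoux α) = lascoux α := by
  rw [lascoux_ascent α j h, piBar_idem]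

lemma piBar_lascoux_eq (α : Fin (m + 1) → ℕ) (j : Fin m) (h : α j.castSucc = α j.succ) :
    piBar j (lascoux α) = lascoux α := by
  obtain ⟨_, hk⟩ := rec_equal (b := mono) zeroHecke_piBar (fun _ x => x) (fun _ _ _ => rfl)
    (fun a j _ hj => by
      apply piBar_of_sw
      rw [sw_mono, comp_s_of_eq j a hj]) α j h
  exact hk

lemma piBar_lascoux (α : Fin (m + 1) → ℕ) (j : Fin m) :
    ∃ β : Fin (m + 1) → ℕ, piBar j (lascoux α) = lascoux β ∧ ∑ i, β i = ∑ i, α i := by
  rcases lt_trichotomy (α j.castSucc) (α j.succ) with h | h | h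
  · exact ⟨α, piBar_lascoux_asc α j h, rfl⟩
  · exact ⟨α, piBar_lascoux_eq α j h, rfl⟩
  · exact ⟨α ∘ s j, piBar_lascoux_desc α j h, sum_comp_s j α⟩

/-- The cone of graded nonnegative combinations of Lascoux polynomials, base degree `d`. -/
noncomputable def P (m d : ℕ) : AddSubmonoid (Poly m) :=
  AddSubmonoid.closure {f | ∃ γ : Fin (m + 1) → ℕ, f = (-1 : ℤ) ^ (∑ i, γ i + d) • lascoux γ}

lemma P_piBar {d : ℕ} (j : Fin m) {f : Poly m} (hf : f ∈ P m d) : piBar j f ∈ P m d := by
  induction hf using AddSubmonoid.closure_induction with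
  | mem x hx =>
    obtain ⟨γ, rfl⟩ := hx
    obtain ⟨β, hβ, hs⟩ := piBar_lascoux γ j
    rw [piBar_smul, hβ, ← hs]
    exact AddSubmonoid.subset_closure ⟨β, rfl⟩
  | zero => rw [piBar_zero]; exact zero_mem _
  | add x y _ _ hx hy => rw [piBar_add]; exact add_mem hx hy

lemma P_neg {d : ℕ} {f : Poly m} (hf : f ∈ P m (d + 1)) : -f ∈ P m d := by
  induction hf using AddSubmonoid.closure_induction with
  | mem x hx =>
    obtain ⟨γ, rfl⟩ := hx
    refine AddSubmonoid.subset_closure ⟨γ, ?_⟩
    rw [← neg_smul]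
    congr 1
    ring
  | zero => rw [neg_zero]; exact zero_mem _
  | add x y _ _ hx hy => rw [neg_add]; exact add_mem hx hy

lemma lascoux_mem (γ : Fin (m + 1) → ℕ) : lascoux γ ∈ P m (∑ i, γ i) := by
  refine AddSubmonoid.subset_closure ⟨γ, ?_⟩
  rw [← two_mul, pow_mul]
  simp

/-- The operator attached to a label function. -/
noncomputable def op (a : Fin (m + 1) → ℕ) : Poly m →ₗ[ℤ] Poly m :=
  rec (fun j A => A ∘ₗ piL j) (fun _ => LinearMap.id) a

lemma zeroHecke_right : ZeroHecke (fun (j : Fin m) (A : Poly m →ₗ[ℤ] Poly m) => A ∘ₗ piL j) where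
  idem := by
    intro j A
    apply LinearMap.ext
    intro x
    simp [piBar_idem]
  comm := by
    intro i j h A
    apply LinearMap.ext
    intro x
    simp [piBar_comm i j h x]
  braid := by
    intro i j h A
    apply LinearMap.ext
    intro x
    simp [piBar_braid i j h x]

lemma op_antitone (a : Fin (m + 1) → ℕ) (h : Antitone a) : op a = LinearMap.id :=
  rec_antitone a h

lemma op_ascent (a : Fin (m + 1) → ℕ) (j : Fin m) (h : a j.castSucc < a j.succ) :
    op a = op (a ∘ s j) ∘ₗ piL j :=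
  rec_ascent (b := fun _ => LinearMap.id) zeroHecke_right a j h

lemma op_equal (a : Fin (m + 1) → ℕ) (j : Fin m) (h : a j.castSucc = a j.succ) :
    ∃ k, op a ∘ₗ piL j = piL k ∘ₗ op a := by
  have hq : ∀ (i k : Fin m) (A : Poly m →ₗ[ℤ] Poly m),
      (piL k ∘ₗ A) ∘ₗ piL i = piL k ∘ₗ (A ∘ₗ piL i) := by
    intro i k A
    rw [LinearMap.comp_assoc]
  have hb0 : ∀ (a : Fin (m + 1) → ℕ) (j : Fin m), Antitone a → a j.castSucc = a j.succ →
      (LinearMap.id : Poly m →ₗ[ℤ] Poly m) ∘ₗ piL j = piL j ∘ₗ LinearMap.id := by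
    intro a j _ _
    rw [LinearMap.id_comp, LinearMap.comp_id]
  exact rec_equal (V := Poly m →ₗ[ℤ] Poly m) (p := fun j A => A ∘ₗ piL j)
    (b := fun _ => LinearMap.id) zeroHecke_right (fun k A => piL k ∘ₗ A)
    hq hb0 a j h

lemma P_op {d : ℕ} (a : Fin (m + 1) → ℕ) : ∀ {f : Poly m}, f ∈ P m d → op a f ∈ P m d := by
  induction hN : inv a using Nat.strong_induction_on generalizing a with
  | _ N IH =>
    intro f hf
    subst hN
    by_cases hex : ∃ j : Fin m, a j.castSucc < a j.succ
    · obtain ⟨j, hj⟩ := hex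
      rw [op_ascent a j hj, LinearMap.comp_apply]
      exact IH _ (inv_lt j a hj) _ rfl (P_piBar j hf)
    · rw [op_antitone a (antitone_of_no_ascent a hex)]
      exact hf

/-- The factor `∏_{a i ≠ 0} x_i ∏_{a i = 0} (1 - x_i)`. -/
noncomputable def gfac (a : Fin (m + 1) → ℕ) : Poly m := ∏ i, if a i = 0 then 1 - X i else X i

lemma sw_gfac (j : Fin m) (a : Fin (m + 1) → ℕ) : sw j (gfac a) = gfac (a ∘ s j) := by
  unfold gfac sw
  rw [map_prod, ← Equiv.prod_comp (s j)]
  refine Finset.prod_congr rfl fun i _ => ?_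
  simp only [Function.comp]
  split_ifs <;> simp [s_s]

/-- the part of `gfac a` away from positions `j`, `j + 1` -/
noncomputable def grest (j : Fin m) (a : Fin (m + 1) → ℕ) : Poly m :=
  ∏ i ∈ Finset.univ \ {j.castSucc, j.succ}, if a i = 0 then 1 - X i else X i

lemma gfac_eq (j : Fin m) (a : Fin (m + 1) → ℕ) :
    gfac a = grest j a * ((if a j.castSucc = 0 then 1 - X j.castSucc else X j.castSucc) *
      (if a j.succ = 0 then 1 - X j.succ else X j.succ)) := by
  unfold gfac grest
  rw [← Finset.prod_pair (castSucc_ne_succ j)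
    (f := fun i => if a i = 0 then (1 - X i : Poly m) else X i)]
  rw [Finset.prod_sdiff (Finset.subset_univ _)]

lemma grest_comp (j : Fin m) (a : Fin (m + 1) → ℕ) : grest j (a ∘ s j) = grest j a := by
  unfold grest
  refine Finset.prod_congr rfl fun i hi => ?_
  simp only [Finset.mem_sdiff, Finset.mem_univ, true_and, Finset.mem_insert,
    Finset.mem_singleton, not_or] at hi
  simp only [Function.comp, s_of_ne j i hi.1 hi.2]

lemma sw_grest (j : Fin m) (a : Fin (m + 1) → ℕ) : sw j (grest j a) = grest j a := by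
  unfold grest sw
  rw [map_prod]
  refine Finset.prod_congr rfl fun i hi => ?_
  simp only [Finset.mem_sdiff, Finset.mem_univ, true_and, Finset.mem_insert,
    Finset.mem_singleton, not_or] at hi
  split_ifs <;> simp [s_of_ne j i hi.1 hi.2]

lemma gfac_piBar_equal (j : Fin m) (a : Fin (m + 1) → ℕ) (h : a j.castSucc = a j.succ)
    (f : Poly m) : gfac a * piBar j f = piBar j (gfac a * f) := by
  rw [piBar_mul_of_sw]
  rw [sw_gfac, comp_s_of_eq j a h]

lemma gfac_piBar_desc (j : Fin m) (a : Fin (m + 1) → ℕ) (h1 : a j.castSucc ≠ 0)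
    (h2 : a j.succ = 0) (f : Poly m) :
    gfac a * piBar j f = piBar j (gfac (a ∘ s j) * f) + gfac a * f := by
  have e1 := gfac_eq j a
  have e2 := gfac_eq j (a ∘ s j)
  simp only [Function.comp, s_castSucc, s_succ, h1, h2, if_true, if_false] at e1 e2
  have e2' : gfac (a ∘ s j) = grest j a * ((1 - X j.castSucc) * X j.succ) := by
    rw [← grest_comp j a]; exact e2
  have hs := sw_grest j a
  have key : piBar j (gfac (a ∘ s j) * f) = gfac a * piBar j f - gfac a * f := by
    apply piBar_unique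
    have e3 := piBar_spec j f
    rw [e2', e1]
    simp only [sw_mul, sw_sub, sw_one, sw_X, s_castSucc, s_succ, hs]
    linear_combination (grest j a * (X j.castSucc * (1 - X j.succ))) * e3
  rw [key]; ring

lemma gfac_piBar_asc (j : Fin m) (a : Fin (m + 1) → ℕ) (h1 : a j.castSucc = 0)
    (h2 : a j.succ ≠ 0) (f : Poly m) (hf : sw j f = f) :
    piBar j (gfac a * f) = 0 := by
  have e1 := gfac_eq j a
  simp only [h1, h2, if_true, if_false] at e1
  have hs := sw_grest j a
  apply piBar_unique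
  rw [e1]
  simp only [sw_mul, sw_sub, sw_one, sw_X, s_castSucc, s_succ, hs, hf]
  ring

end Pool.Agent.MPce9680
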