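import Mathlib

/-!
Demazure-type (0-Hecke) operators on `ℤ[x_0, …, x_m]`.
-/

namespace Pool.Agent.MPce9680

open MvPolynomial

/-- The polynomial ring `ℤ[x_0, …, x_m]` in `n = m + 1` variables. -/
abbrev Poly (m : ℕ) := MvPolynomial (Fin (m + 1)) ℤ

variable {m : ℕ}

/-- The transposition of the adjacent positions `j` and `j + 1`. -/
def s (j : Fin m) : Equiv.Perm (Fin (m + 1)) := Equiv.swap j.castSucc j.succ

/-- `s_j` acting on polynomials: swap the variables `x_j` and `x_{j+1}`. -/
noncomputable def sw (j : Fin m) (f : Poly m) : Poly m := rename (s j) f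

lemma s_castSucc (j : Fin m) : s j j.castSucc = j.succ := by simp [s]
lemma s_succ (j : Fin m) : s j j.succ = j.castSucc := by simp [s]
lemma s_of_ne (j : Fin m) (i : Fin (m + 1)) (h1 : i ≠ j.castSucc) (h2 : i ≠ j.succ) :
    s j i = i := by simp [s, Equiv.swap_apply_of_ne_of_ne h1 h2]
lemma s_s (j : Fin m) (i : Fin (m + 1)) : s j (s j i) = i := by simp [s]

@[simp] lemma sw_add (j : Fin m) (f g : Poly m) : sw j (f + g) = sw j f + sw j g := by simp [sw]
@[simp] lemma sw_sub (j : Fin m) (f g : Poly m) : sw j (f - g) = sw j f - sw j g := by simp [sw]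
@[simp] lemma sw_mul (j : Fin m) (f g : Poly m) : sw j (f * g) = sw j f * sw j g := by simp [sw]
@[simp] lemma sw_one (j : Fin m) : sw j (1 : Poly m) = 1 := by simp [sw]
@[simp] lemma sw_zero (j : Fin m) : sw j (0 : Poly m) = 0 := by simp [sw]
@[simp] lemma sw_neg (j : Fin m) (f : Poly m) : sw j (-f) = - sw j f := by simp [sw]
@[simp] lemma sw_C (j : Fin m) (a : ℤ) : sw j (C a : Poly m) = C a := by simp [sw]
@[simp] lemma sw_smul (j : Fin m) (a : ℤ) (f : Poly m) : sw j (a • f) = a • sw j f := by
  simp [sw]
@[simp] lemma sw_X (j : Fin m) (i : Fin (m + 1)) : sw j (X i : Poly m) = X (s j i) := by simp [sw]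
lemma sw_sw (j : Fin m) (f : Poly m) : sw j (sw j f) = f := by
  simp only [sw, rename_rename]
  have : (⇑(s j) ∘ ⇑(s j)) = id := by funext i; simp [s_s]
  rw [this]; simp

lemma castSucc_ne_succ (j : Fin m) : j.castSucc ≠ j.succ := by
  intro h; have := congrArg Fin.val h; simp at this

/-- `x_j - x_{j+1}` -/
noncomputable def dx (j : Fin m) : Poly m := X j.castSucc - X j.succ

lemma X_sub_X_ne_zero {a b : Fin (m + 1)} (h : a ≠ b) : (X a - X b : Poly m) ≠ 0 := by
  intro h0
  exact h (X_injective (sub_eq_zero.mp h0))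

lemma dx_ne_zero (j : Fin m) : (X j.castSucc - X j.succ : Poly m) ≠ 0 :=
  X_sub_X_ne_zero (castSucc_ne_succ j)

lemma dvd_sub_sw (j : Fin m) (f : Poly m) : (X j.castSucc - X j.succ) ∣ f - sw j f := by
  induction f using MvPolynomial.induction_on with
  | C a => rw [sw_C, sub_self]; exact dvd_zero _
  | add p q hp hq =>
    have : p + q - sw j (p + q) = (p - sw j p) + (q - sw j q) := by simp; ring
    rw [this]; exact dvd_add hp hq
  | mul_X p i hp =>
    have : p * X i - sw j (p * X i) = (p - sw j p) * X i + sw j p * (X i - X (s j i)) := by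
      simp; ring
    rw [this]
    refine dvd_add (Dvd.dvd.mul_right hp _) (Dvd.dvd.mul_left ?_ _)
    by_cases h1 : i = j.castSucc
    · subst h1; rw [s_castSucc]
    · by_cases h2 : i = j.succ
      · subst h2; rw [s_succ]
        exact ⟨-1, by ring⟩
      · rw [s_of_ne j i h1 h2]; simp

/-- The divided difference `∂_j f`: the polynomial `g` with
`(x_j - x_{j+1}) * g = f - s_j f`. -/
noncomputable def ddiff (j : Fin m) (f : Poly m) : Poly m := Classical.choose (dvd_sub_sw j f)

lemma ddiff_spec (j : Fin m) (f : Poly m) :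
    (X j.castSucc - X j.succ) * ddiff j f = f - sw j f :=
  (Classical.choose_spec (dvd_sub_sw j f)).symm

/-- The operator `π̄_j f = ∂_j ((1 - x_{j+1}) x_j f)`. -/
noncomputable def piBar (j : Fin m) (f : Poly m) : Poly m :=
  ddiff j ((1 - X j.succ) * X j.castSucc * f)

lemma piBar_spec (j : Fin m) (f : Poly m) :
    (X j.castSucc - X j.succ) * piBar j f =
      (1 - X j.succ) * X j.castSucc * f - (1 - X j.castSucc) * X j.succ * sw j f := by
  rw [piBar, ddiff_spec]
  simp [s_castSucc, s_succ]

lemma piBar_unique (j : Fin m) (f g : Poly m)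
    (h : (X j.castSucc - X j.succ) * g =
      (1 - X j.succ) * X j.castSucc * f - (1 - X j.castSucc) * X j.succ * sw j f) :
    piBar j f = g := by
  apply mul_left_cancel₀ (dx_ne_zero j)
  rw [piBar_spec, h]

lemma piBar_add (j : Fin m) (f g : Poly m) : piBar j (f + g) = piBar j f + piBar j g := by
  apply piBar_unique
  have h1 := piBar_spec j f
  have h2 := piBar_spec j g
  rw [sw_add]
  linear_combination h1 + h2

lemma piBar_neg (j : Fin m) (f : Poly m) : piBar j (-f) = - piBar j f := by
  apply piBar_unique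
  have h1 := piBar_spec j f
  rw [sw_neg]
  linear_combination -h1

lemma piBar_zero (j : Fin m) : piBar j (0 : Poly m) = 0 := by
  apply piBar_unique; simp

lemma piBar_mul_of_sw (j : Fin m) (h f : Poly m) (hh : sw j h = h) :
    piBar j (h * f) = h * piBar j f := by
  apply piBar_unique
  have h1 := piBar_spec j f
  rw [sw_mul, hh]
  linear_combination h * h1

lemma piBar_smul (j : Fin m) (a : ℤ) (f : Poly m) : piBar j (a • f) = a • piBar j f := by
  rw [MvPolynomial.smul_eq_C_mul, MvPolynomial.smul_eq_C_mul]
  exact piBar_mul_of_sw j _ _ (sw_C j a)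

/-- `π̄_j` as a linear map. -/
noncomputable def piL (j : Fin m) : Poly m →ₗ[ℤ] Poly m where
  toFun := piBar j
  map_add' := piBar_add j
  map_smul' := by intro a f; simpa using piBar_smul j a f

@[simp] lemma piL_apply (j : Fin m) (f : Poly m) : piL j f = piBar j f := rfl

lemma piBar_one (j : Fin m) : piBar j (1 : Poly m) = 1 := by
  apply piBar_unique
  rw [sw_one]; ring

lemma piBar_of_sw (j : Fin m) (f : Poly m) (h : sw j f = f) : piBar j f = f := by
  have := piBar_mul_of_sw j f 1 h
  rwa [mul_one, piBar_one, mul_one] at this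

lemma sw_piBar (j : Fin m) (f : Poly m) : sw j (piBar j f) = piBar j f := by
  apply mul_left_cancel₀ (dx_ne_zero j)
  have h1 := piBar_spec j f
  have h2 := congrArg (sw j) h1
  simp only [sw_mul, sw_sub, sw_X, s_castSucc, s_succ, sw_one, sw_sw] at h2
  linear_combination -h2 - h1

lemma piBar_idem (j : Fin m) (f : Poly m) : piBar j (piBar j f) = piBar j f :=
  piBar_of_sw j _ (sw_piBar j f)

lemma piBar_eq_self_iff (j : Fin m) (f : Poly m) : piBar j f = f ↔ sw j f = f :=
  ⟨fun h => by rw [← h, sw_piBar], piBar_of_sw j f⟩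

/-- far commutation -/
lemma piBar_comm (i j : Fin m) (hij : (i : ℕ) + 1 < j) (f : Poly m) :
    piBar i (piBar j f) = piBar j (piBar i f) := by
  have a1 : s j i.castSucc = i.castSucc := by
    apply s_of_ne <;> · intro h; have := congrArg Fin.val h; simp at this; omega
  have a2 : s j i.succ = i.succ := by
    apply s_of_ne <;> · intro h; have := congrArg Fin.val h; simp at this; omega
  have b1 : s i j.castSucc = j.castSucc := by
    apply s_of_ne <;> · intro h; have := congrArg Fin.val h; simp at this; omega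
  have b2 : s i j.succ = j.succ := by
    apply s_of_ne <;> · intro h; have := congrArg Fin.val h; simp at this; omega
  have hsw : sw i (sw j f) = sw j (sw i f) := by
    simp only [sw, rename_rename]
    congr 1
    have : (⇑(s i) ∘ ⇑(s j)) = (⇑(s j) ∘ ⇑(s i)) := by
      funext x
      simp only [Function.comp]
      by_cases h1 : x = i.castSucc
      · subst h1; rw [a1, s_castSucc, a2]
      by_cases h2 : x = i.succ
      · subst h2; rw [a2, s_succ, a1]
      by_cases h3 : x = j.castSucc
      · subst h3; rw [s_castSucc, b1, b2, s_castSucc]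
      by_cases h4 : x = j.succ
      · subst h4; rw [s_succ, b1, b2, s_succ]
      rw [s_of_ne i x h1 h2, s_of_ne j x h3 h4, s_of_ne i x h1 h2]
    rw [this]
  apply mul_left_cancel₀ (mul_ne_zero (dx_ne_zero i) (dx_ne_zero j))
  have e1 := piBar_spec i (piBar j f)
  have e2 := piBar_spec j f
  have e3 := congrArg (sw i) e2
  simp only [sw_mul, sw_sub, sw_X, b1, b2, sw_one] at e3
  have e4 := piBar_spec j (piBar i f)
  have e5 := piBar_spec i f
  have e6 := congrArg (sw j) e5
  simp only [sw_mul, sw_sub, sw_X, a1, a2, sw_one] at e6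
  rw [hsw] at e3
  linear_combination (X j.castSucc - X j.succ) * e1
    + (1 - X i.succ) * X i.castSucc * e2 - (1 - X i.castSucc) * X i.succ * e3
    - (X i.castSucc - X i.succ) * e4
    - (1 - X j.succ) * X j.castSucc * e5 + (1 - X j.castSucc) * X j.succ * e6

/-- braid relation -/
lemma piBar_braid (i j : Fin m) (hij : (i : ℕ) + 1 = j) (f : Poly m) :
    piBar i (piBar j (piBar i f)) = piBar j (piBar i (piBar j f)) := by
  have hb : j.castSucc = i.succ := by
    apply Fin.ext; simp; omega
  have hac : i.castSucc ≠ j.succ := by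
    intro h; have := congrArg Fin.val h; simp at this; omega
  have hbc : i.succ ≠ j.succ := by
    intro h; have := congrArg Fin.val h; simp at this; omega
  have sia : s i i.castSucc = i.succ := s_castSucc i
  have sib : s i i.succ = i.castSucc := s_succ i
  have sic : s i j.succ = j.succ := s_of_ne i _ hac.symm hbc.symm
  have sjb : s j i.succ = j.succ := by rw [← hb]; exact s_castSucc j
  have sjc : s j j.succ = i.succ := by rw [← hb]; exact s_succ j
  have sja : s j i.castSucc = i.castSucc := by
    apply s_of_ne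
    · rw [hb]; exact castSucc_ne_succ i
    · exact hac
  have hbr : sw i (sw j (sw i f)) = sw j (sw i (sw j f)) := by
    simp only [sw, rename_rename]
    congr 1
    have : (⇑(s i) ∘ (⇑(s j) ∘ ⇑(s i))) = (⇑(s j) ∘ (⇑(s i) ∘ ⇑(s j))) := by
      funext x
      simp only [Function.comp]
      by_cases h1 : x = i.castSucc
      · subst h1; rw [sia, sjb, sic, sja, sia, sjb]
      by_cases h2 : x = i.succ
      · subst h2; rw [sib, sja, sia, sjb, sic, sjc]
      by_cases h3 : x = j.succ
      · subst h3; rw [sic, sjc, sib, sja]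
      have h2' : x ≠ j.castSucc := by rw [hb]; exact h2
      rw [s_of_ne i x h1 h2, s_of_ne j x h2' h3, s_of_ne i x h1 h2, s_of_ne j x h2' h3]
    rw [this]
  -- the two chains
  have e1 := piBar_spec i (piBar j (piBar i f))
  have e2 := piBar_spec j (piBar i f)
  have e3 := congrArg (sw i) e2
  have e4 := piBar_spec i f
  have e5 := congrArg (sw j) e4
  have e6 := congrArg (sw i) e5
  have d1 := piBar_spec j (piBar i (piBar j f))
  have d2 := piBar_spec i (piBar j f)
  have d3 := congrArg (sw j) d2
  have d4 := piBar_spec j f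
  have d5 := congrArg (sw i) d4
  have d6 := congrArg (sw j) d5
  simp only [sw_mul, sw_sub, sw_X, sw_one, sia, sib, sic, sja, sjb, sjc, sw_piBar, hb] at *
  have n1 : (X i.castSucc - X i.succ : Poly m) ≠ 0 := dx_ne_zero i
  have n2 : (X i.succ - X j.succ : Poly m) ≠ 0 := X_sub_X_ne_zero hbc
  have n3 : (X i.castSucc - X j.succ : Poly m) ≠ 0 := X_sub_X_ne_zero hac
  rw [← hbr] at d6
  generalize (X i.castSucc : Poly m) = a at *
  generalize (X i.succ : Poly m) = b at *
  generalize (X j.succ : Poly m) = c at *
  generalize piBar i (piBar j (piBar i f)) = F at *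
  generalize piBar j (piBar i (piBar j f)) = G at *
  generalize sw i (piBar j (piBar i f)) = t at *
  generalize sw j (piBar i (piBar j f)) = t' at *
  generalize piBar j (piBar i f) = p at *
  generalize piBar i (piBar j f) = p' at *
  generalize sw i (sw j (piBar i f)) = v at *
  generalize sw j (sw i (piBar j f)) = v' at *
  generalize sw j (piBar i f) = u at *
  generalize sw i (piBar j f) = u' at *
  generalize piBar i f = q at *
  generalize piBar j f = q' at *
  generalize sw i (sw j (sw i f)) = f5 at *
  generalize sw j (sw i f) = f4 at *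
  generalize sw i (sw j f) = f3 at *
  generalize sw j f = f2 at *
  generalize sw i f = f1 at *
  apply mul_left_cancel₀ (mul_ne_zero (mul_ne_zero (mul_ne_zero n1 n2) n3) (mul_ne_zero n1 n2))
  linear_combination (b - c) * ((a - b) * (a - c) * (b - c) * e1
    + (a - b) * (a - c) * ((1 - b) * a) * e2
    - (a - b) * (b - c) * ((1 - a) * b) * e3
    + (a - c) * ((1 - b) * a) * ((1 - c) * b) * e4
    - (b - c) * ((1 - a) * b) * ((1 - c) * a) * e4
    - (a - b) * ((1 - b) * a) * ((1 - b) * c) * e5
    + (a - b) * ((1 - a) * b) * ((1 - a) * c) * e6)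
    - (a - b) * ((a - b) * (a - c) * (b - c) * d1
    + (b - c) * (a - c) * ((1 - c) * b) * d2
    - (a - b) * (b - c) * ((1 - b) * c) * d3
    + (a - c) * ((1 - c) * b) * ((1 - b) * a) * d4
    - (a - b) * ((1 - b) * c) * ((1 - c) * a) * d4
    - (b - c) * ((1 - c) * b) * ((1 - a) * b) * d5
    + (b - c) * ((1 - b) * c) * ((1 - a) * c) * d6)

end Pool.Agent.MPce9680
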