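import Pool.Agent.Lib.MP_ce9680_co.Ops

/-!
A general recursion along adjacent ascents, for a family of operators satisfying the 0-Hecke
relations.
-/

namespace Pool.Agent.MPce9680

variable {m : ℕ}

/-- number of pairs `x < y` with `a x < a y` -/
def inv (a : Fin (m + 1) → ℕ) : ℕ := ∑ x, ∑ y, if x < y ∧ a x < a y then 1 else 0

lemma s_lt_iff (j : Fin m) (x y : Fin (m + 1)) (P : Prop) [Decidable P] :
    ((if s j x < s j y ∧ P then 1 else 0) + (if x = j.castSucc ∧ y = j.succ ∧ P then 1 else 0) : ℕ)
      = (if x < y ∧ P then 1 else 0) + (if x = j.succ ∧ y = j.castSucc ∧ P then 1 else 0) := by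
  by_cases hP : P
  · simp only [hP, and_true]
    have hs : ∀ z : Fin (m + 1), (s j z).val = if z.val = j.val then j.val + 1 else
        if z.val = j.val + 1 then j.val else z.val := by
      intro z
      rw [s, Equiv.swap_apply_def]
      by_cases h1 : z = j.castSucc
      · subst h1; simp
      · have h1' : z.val ≠ j.val := fun h => h1 (Fin.ext (by simpa using h))
        by_cases h2 : z = j.succ
        · subst h2; simp [(castSucc_ne_succ j).symm]
        · have h2' : z.val ≠ j.val + 1 := fun h => h2 (Fin.ext (by simpa using h))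
          simp [h1, h2, h1', h2']
    simp only [Fin.lt_def, Fin.ext_iff, hs, Fin.val_castSucc, Fin.val_succ]
    split_ifs <;> omega
  · simp [hP]

lemma inv_comp_s (j : Fin m) (a : Fin (m + 1) → ℕ) :
    inv (a ∘ s j) + (if a j.castSucc < a j.succ then 1 else 0) =
      inv a + (if a j.succ < a j.castSucc then 1 else 0) := by
  have h1 : inv (a ∘ s j) = ∑ x, ∑ y, if s j x < s j y ∧ a x < a y then 1 else 0 := by
    unfold inv
    rw [← Equiv.sum_comp (s j)]
    refine Finset.sum_congr rfl fun x _ => ?_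
    rw [← Equiv.sum_comp (s j)]
    refine Finset.sum_congr rfl fun y _ => ?_
    simp [Function.comp, s_s]
  have h2 : (if a j.castSucc < a j.succ then 1 else 0 : ℕ) =
      ∑ x, ∑ y, if x = j.castSucc ∧ y = j.succ ∧ a x < a y then 1 else 0 := by
    rw [Finset.sum_eq_single j.castSucc, Finset.sum_eq_single j.succ]
    · simp
    · intro b _ hb; simp [hb]
    · intro h; exact absurd (Finset.mem_univ _) h
    · intro b _ hb; simp [hb]
    · intro h; exact absurd (Finset.mem_univ _) h
  have h3 : (if a j.succ < a j.castSucc then 1 else 0 : ℕ) =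
      ∑ x, ∑ y, if x = j.succ ∧ y = j.castSucc ∧ a x < a y then 1 else 0 := by
    rw [Finset.sum_eq_single j.succ, Finset.sum_eq_single j.castSucc]
    · simp
    · intro b _ hb; simp [hb]
    · intro h; exact absurd (Finset.mem_univ _) h
    · intro b _ hb; simp [hb]
    · intro h; exact absurd (Finset.mem_univ _) h
  rw [h1, h2, h3]
  unfold inv
  rw [← Finset.sum_add_distrib, ← Finset.sum_add_distrib]
  refine Finset.sum_congr rfl fun x _ => ?_
  rw [← Finset.sum_add_distrib, ← Finset.sum_add_distrib]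
  refine Finset.sum_congr rfl fun y _ => ?_
  exact s_lt_iff j x y (a x < a y)

lemma inv_lt (j : Fin m) (a : Fin (m + 1) → ℕ) (h : a j.castSucc < a j.succ) :
    inv (a ∘ s j) < inv a := by
  have := inv_comp_s j a
  rw [if_pos h, if_neg (by omega)] at this
  omega

/-- recursion along ascents -/
noncomputable def rec {V : Type*} (p : Fin m → V → V) (b : (Fin (m + 1) → ℕ) → V)
    (a : Fin (m + 1) → ℕ) : V :=
  open Classical in
  if h : ∃ j : Fin m, a j.castSucc < a j.succ then p h.choose (rec p b (a ∘ s h.choose)) else b a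
termination_by inv a
decreasing_by exact inv_lt _ _ h.choose_spec

lemma antitone_of_no_ascent (a : Fin (m + 1) → ℕ) (h : ¬ ∃ j : Fin m, a j.castSucc < a j.succ) :
    Antitone a := by
  rw [Fin.antitone_iff_succ_le]
  intro i
  by_contra hc
  exact h ⟨i, by omega⟩

/-- the 0-Hecke relations for a family of self-maps -/
structure ZeroHecke {V : Type*} (p : Fin m → V → V) : Prop where
  idem : ∀ j x, p j (p j x) = p j x
  comm : ∀ i j : Fin m, (i : ℕ) + 1 < j → ∀ x, p i (p j x) = p j (p i x)
  braid : ∀ i j : Fin m, (i : ℕ) + 1 = j → ∀ x, p i (p j (p i x)) = p j (p i (p j x))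

variable {V : Type*} {p : Fin m → V → V} {b : (Fin (m + 1) → ℕ) → V}

lemma rec_antitone (a : Fin (m + 1) → ℕ) (h : Antitone a) : rec p b a = b a := by
  rw [rec, dif_neg]
  rintro ⟨j, hj⟩
  exact absurd (h (Fin.castSucc_lt_succ (i := j)).le) (by omega)

/-- Values of `a ∘ s i` and so on at three consecutive positions. -/
lemma far_s (i j : Fin m) (hij : (i : ℕ) + 1 < j ∨ (j : ℕ) + 1 < i) :
    s i j.castSucc = j.castSucc ∧ s i j.succ = j.succ := by
  constructor
  all_goals
    apply s_of_ne <;>
    · intro h; have := congrArg Fin.val h; simp at this; omega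

lemma far_comp (i j : Fin m) (hij : (i : ℕ) + 1 < j ∨ (j : ℕ) + 1 < i) (a : Fin (m + 1) → ℕ) :
    (a ∘ s i) ∘ s j = (a ∘ s j) ∘ s i := by
  obtain ⟨b1, b2⟩ := far_s i j hij
  obtain ⟨a1, a2⟩ := far_s j i hij.symm
  funext x
  simp only [Function.comp]
  congr 1
  by_cases h1 : x = i.castSucc
  · subst h1; rw [a1, s_castSucc, a2]
  by_cases h2 : x = i.succ
  · subst h2; rw [a2, s_succ, a1]
  by_cases h3 : x = j.castSucc
  · subst h3; rw [s_castSucc, b1, b2, s_castSucc]
  by_cases h4 : x = j.succ
  · subst h4; rw [s_succ, b1, b2, s_succ]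
  rw [s_of_ne i x h1 h2, s_of_ne j x h3 h4, s_of_ne i x h1 h2]

/-- data on `s i`, `s j` for adjacent `i, j` -/
lemma near_s (i j : Fin m) (hij : (i : ℕ) + 1 = j) :
    j.castSucc = i.succ ∧ s i i.castSucc = i.succ ∧ s i i.succ = i.castSucc ∧
    s i j.succ = j.succ ∧ s j i.castSucc = i.castSucc ∧ s j i.succ = j.succ ∧
    s j j.succ = i.succ := by
  have hb : j.castSucc = i.succ := by
    apply Fin.ext; simp; omega
  have hac : i.castSucc ≠ j.succ := by
    intro h; have := congrArg Fin.val h; simp at this; omega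
  have hbc : i.succ ≠ j.succ := by
    intro h; have := congrArg Fin.val h; simp at this; omega
  refine ⟨hb, s_castSucc i, s_succ i, s_of_ne i _ hac.symm hbc.symm, ?_, ?_, ?_⟩
  · apply s_of_ne
    · rw [hb]; exact castSucc_ne_succ i
    · exact hac
  · rw [← hb]; exact s_castSucc j
  · rw [← hb]; exact s_succ j

lemma near_comp (i j : Fin m) (hij : (i : ℕ) + 1 = j) (a : Fin (m + 1) → ℕ) :
    ((a ∘ s i) ∘ s j) ∘ s i = ((a ∘ s j) ∘ s i) ∘ s j := by
  obtain ⟨hb, sia, sib, sic, sja, sjb, sjc⟩ := near_s i j hij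
  funext x
  simp only [Function.comp]
  congr 1
  by_cases h1 : x = i.castSucc
  · subst h1; rw [sia, sjb, sic, sja, sia, sjb]
  by_cases h2 : x = i.succ
  · subst h2; rw [sib, sja, sia, sjb, sic, sjc]
  by_cases h3 : x = j.succ
  · subst h3; rw [sic, sjc, sib, sja]
  have h2' : x ≠ j.castSucc := by rw [hb]; exact h2
  rw [s_of_ne i x h1 h2, s_of_ne j x h2' h3, s_of_ne i x h1 h2, s_of_ne j x h2' h3]

/-- The recursion does not depend on the chosen ascent. -/
theorem rec_ascent (hp : ZeroHecke p) (a : Fin (m + 1) → ℕ) (j : Fin m)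
    (hj : a j.castSucc < a j.succ) : rec p b a = p j (rec p b (a ∘ s j)) := by
  induction hN : inv a using Nat.strong_induction_on generalizing a j with
  | _ N IH =>
    subst hN
    have hex : ∃ j : Fin m, a j.castSucc < a j.succ := ⟨j, hj⟩
    have hrec : rec p b a = p hex.choose (rec p b (a ∘ s hex.choose)) := by
      rw [rec, dif_pos hex]
    have hi := hex.choose_spec
    generalize hex.choose = i at hrec hi
    rw [hrec]
    rcases lt_trichotomy ((i : ℕ)) (j : ℕ) with hlt | heq | hgt
    · rcases Nat.lt_or_ge ((i : ℕ) + 1) j with h1 | h1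
      · -- far, i < j
        obtain ⟨b1, b2⟩ := far_s i j (Or.inl h1)
        obtain ⟨a1, a2⟩ := far_s j i (Or.inr h1)
        rw [IH _ (inv_lt i a hi) (a ∘ s i) j (by simpa [b1, b2] using hj) rfl,
          IH _ (inv_lt j a hj) (a ∘ s j) i (by simpa [a1, a2] using hi) rfl,
          far_comp i j (Or.inl h1), hp.comm i j h1]
      · -- near, i + 1 = j
        have h1 : (i : ℕ) + 1 = j := by omega
        obtain ⟨hb, sia, sib, sic, sja, sjb, sjc⟩ := near_s i j h1
        rw [hb] at hj
        have k1 : inv (a ∘ s i) < inv a := inv_lt i a hi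
        have c1 : (a ∘ s i) j.castSucc < (a ∘ s i) j.succ := by
          simp only [Function.comp, hb, sib, sic]; omega
        have k2 : inv ((a ∘ s i) ∘ s j) < inv (a ∘ s i) := inv_lt j _ c1
        have c2 : ((a ∘ s i) ∘ s j) i.castSucc < ((a ∘ s i) ∘ s j) i.succ := by
          simp only [Function.comp, sja, sia, sjb, sic]; omega
        have l1 : inv (a ∘ s j) < inv a := inv_lt j a (by rw [hb]; exact hj)
        have d1 : (a ∘ s j) i.castSucc < (a ∘ s j) i.succ := by
          simp only [Function.comp, sja, sjb]; omega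
        have l2 : inv ((a ∘ s j) ∘ s i) < inv (a ∘ s j) := inv_lt i _ d1
        have d2 : ((a ∘ s j) ∘ s i) j.castSucc < ((a ∘ s j) ∘ s i) j.succ := by
          simp only [Function.comp, hb, sib, sja, sic, sjc]; omega
        rw [IH _ k1 (a ∘ s i) j c1 rfl, IH _ (k2.trans k1) _ i c2 rfl,
          IH _ l1 (a ∘ s j) i d1 rfl, IH _ (l2.trans l1) _ j d2 rfl,
          near_comp i j h1, hp.braid i j h1]
    · have : i = j := Fin.ext heq
      rw [this]
    · rcases Nat.lt_or_ge ((j : ℕ) + 1) i with h1 | h1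
      · obtain ⟨b1, b2⟩ := far_s i j (Or.inr h1)
        obtain ⟨a1, a2⟩ := far_s j i (Or.inl h1)
        rw [IH _ (inv_lt i a hi) (a ∘ s i) j (by simpa [b1, b2] using hj) rfl,
          IH _ (inv_lt j a hj) (a ∘ s j) i (by simpa [a1, a2] using hi) rfl,
          far_comp i j (Or.inr h1), hp.comm j i h1]
      · have h1 : (j : ℕ) + 1 = i := by omega
        obtain ⟨hb, sia, sib, sic, sja, sjb, sjc⟩ := near_s j i h1
        rw [hb] at hi
        have k1 : inv (a ∘ s j) < inv a := inv_lt j a hj
        have c1 : (a ∘ s j) i.castSucc < (a ∘ s j) i.succ := by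
          simp only [Function.comp, hb, sib, sic]; omega
        have k2 : inv ((a ∘ s j) ∘ s i) < inv (a ∘ s j) := inv_lt i _ c1
        have c2 : ((a ∘ s j) ∘ s i) j.castSucc < ((a ∘ s j) ∘ s i) j.succ := by
          simp only [Function.comp, sja, sia, sjb, sic]; omega
        have l1 : inv (a ∘ s i) < inv a := inv_lt i a (by rw [hb]; exact hi)
        have d1 : (a ∘ s i) j.castSucc < (a ∘ s i) j.succ := by
          simp only [Function.comp, sja, sjb]; omega
        have l2 : inv ((a ∘ s i) ∘ s j) < inv (a ∘ s i) := inv_lt j _ d1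
        have d2 : ((a ∘ s i) ∘ s j) i.castSucc < ((a ∘ s i) ∘ s j) i.succ := by
          simp only [Function.comp, hb, sib, sja, sic, sjc]; omega
        rw [IH _ k1 (a ∘ s j) i c1 rfl, IH _ (k2.trans k1) _ j c2 rfl,
          IH _ l1 (a ∘ s i) j d1 rfl, IH _ (l2.trans l1) _ i d2 rfl,
          near_comp j i h1, hp.braid j i h1]

/-- Behaviour at equal adjacent entries. -/
theorem rec_equal (hp : ZeroHecke p) (q : Fin m → V → V)
    (hq : ∀ i k x, p i (q k x) = q k (p i x))
    (hb0 : ∀ (a : Fin (m + 1) → ℕ) (j : Fin m), Antitone a → a j.castSucc = a j.succ →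
      p j (b a) = q j (b a))
    (a : Fin (m + 1) → ℕ) (j : Fin m)
    (hj : a j.castSucc = a j.succ) : ∃ k, p j (rec p b a) = q k (rec p b a) := by
  induction hN : inv a using Nat.strong_induction_on generalizing a j with
  | _ N IH =>
    subst hN
    by_cases hex : ∃ j : Fin m, a j.castSucc < a j.succ
    · obtain ⟨i, hi⟩ := hex
      have hrec := rec_ascent (b := b) hp a i hi
      rcases lt_trichotomy ((i : ℕ)) (j : ℕ) with hlt | heq | hgt
      · rcases Nat.lt_or_ge ((i : ℕ) + 1) j with h1 | h1
        · obtain ⟨b1, b2⟩ := far_s i j (Or.inl h1)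
          obtain ⟨k, hk⟩ := IH _ (inv_lt i a hi) (a ∘ s i) j (by simpa [b1, b2] using hj) rfl
          refine ⟨k, ?_⟩
          rw [hrec, ← hp.comm i j h1, hk, hq]
        · have h1 : (i : ℕ) + 1 = j := by omega
          obtain ⟨hb, sia, sib, sic, sja, sjb, sjc⟩ := near_s i j h1
          rw [hb] at hj
          have k1 : inv (a ∘ s i) < inv a := inv_lt i a hi
          have c1 : (a ∘ s i) j.castSucc < (a ∘ s i) j.succ := by
            simp only [Function.comp, hb, sib, sic]; omega
          have k2 : inv ((a ∘ s i) ∘ s j) < inv (a ∘ s i) := inv_lt j _ c1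
          have c2 : ((a ∘ s i) ∘ s j) i.castSucc = ((a ∘ s i) ∘ s j) i.succ := by
            simp only [Function.comp, sja, sia, sjb, sic]; omega
          obtain ⟨k, hk⟩ := IH _ (k2.trans k1) _ i c2 rfl
          refine ⟨k, ?_⟩
          rw [hrec, rec_ascent (b := b) hp _ j c1, ← hp.braid i j h1, hk, hq, hq]
      · have : i = j := Fin.ext heq
        subst this; omega
      · rcases Nat.lt_or_ge ((j : ℕ) + 1) i with h1 | h1
        · obtain ⟨b1, b2⟩ := far_s i j (Or.inr h1)
          obtain ⟨k, hk⟩ := IH _ (inv_lt i a hi) (a ∘ s i) j (by simpa [b1, b2] using hj) rfl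
          refine ⟨k, ?_⟩
          rw [hrec, hp.comm j i h1, hk, hq]
        · have h1 : (j : ℕ) + 1 = i := by omega
          obtain ⟨hb, sia, sib, sic, sja, sjb, sjc⟩ := near_s j i h1
          have hi' := hi
          rw [hb] at hi'
          have k1 : inv (a ∘ s i) < inv a := inv_lt i a hi
          have c1 : (a ∘ s i) j.castSucc < (a ∘ s i) j.succ := by
            simp only [Function.comp, sja, sjb]; omega
          have k2 : inv ((a ∘ s i) ∘ s j) < inv (a ∘ s i) := inv_lt j _ c1
          have c2 : ((a ∘ s i) ∘ s j) i.castSucc = ((a ∘ s i) ∘ s j) i.succ := by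
            simp only [Function.comp, hb, sib, sja, sic, sjc]; omega
          obtain ⟨k, hk⟩ := IH _ (k2.trans k1) _ i c2 rfl
          refine ⟨k, ?_⟩
          rw [hrec, rec_ascent (b := b) hp _ j c1, hp.braid j i h1, hk, hq, hq]
    · refine ⟨j, ?_⟩
      rw [rec_antitone a (antitone_of_no_ascent a hex)]
      exact hb0 a j (antitone_of_no_ascent a hex) hj

end Pool.Agent.MPce9680
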