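import Pool.Agent.Lib.MP_ce9680_co.Base

/-!
Triangularity: Lascoux polynomials form a `ℤ`-basis.
-/

namespace Pool.Agent.MPce9680

open MvPolynomial

variable {m : ℕ}

/-- composition as an exponent vector -/
noncomputable def fs (α : Fin (m + 1) → ℕ) : Fin (m + 1) →₀ ℕ := Finsupp.equivFunOnFinite.symm α

@[simp] lemma fs_apply (α : Fin (m + 1) → ℕ) (i : Fin (m + 1)) : fs α i = α i := rfl

lemma fs_injective : Function.Injective (fs (m := m)) :=
  fun _ _ h => Finsupp.equivFunOnFinite.symm.injective h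

lemma fs_coe (v : Fin (m + 1) →₀ ℕ) : fs (⇑v) = v := by ext i; rfl

lemma mono_eq (α : Fin (m + 1) → ℕ) : mono α = monomial (fs α) 1 := by
  rw [monomial_eq, Finsupp.prod_fintype _ _ (fun i => by simp)]
  simp [mono]

/-- degree -/
def D (α : Fin (m + 1) → ℕ) : ℕ := ∑ i, α i
/-- sum of squares -/
def Q (α : Fin (m + 1) → ℕ) : ℕ := ∑ i, α i ^ 2

lemma degree_fs (α : Fin (m + 1) → ℕ) : (fs α).degree = D α := by
  rw [Finsupp.degree_eq_sum]; rfl

lemma D_comp (j : Fin m) (α : Fin (m + 1) → ℕ) : D (α ∘ s j) = D α := sum_comp_s j α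
lemma Q_comp (j : Fin m) (α : Fin (m + 1) → ℕ) : Q (α ∘ s j) = Q α :=
  Equiv.sum_comp (s j) (fun i => α i ^ 2)

/-- replace the entries at positions `j`, `j+1` -/
def upd (j : Fin m) (γ : Fin (m + 1) → ℕ) (t w : ℕ) : Fin (m + 1) → ℕ :=
  Function.update (Function.update γ j.castSucc t) j.succ w

lemma upd_castSucc (j : Fin m) (γ : Fin (m + 1) → ℕ) (t w : ℕ) : upd j γ t w j.castSucc = t := by
  simp [upd, castSucc_ne_succ j]

lemma upd_succ (j : Fin m) (γ : Fin (m + 1) → ℕ) (t w : ℕ) : upd j γ t w j.succ = w := by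
  simp [upd]

lemma upd_of_ne (j : Fin m) (γ : Fin (m + 1) → ℕ) (t w : ℕ) (i : Fin (m + 1))
    (h1 : i ≠ j.castSucc) (h2 : i ≠ j.succ) : upd j γ t w i = γ i := by
  simp [upd, h1, h2]

lemma upd_self (j : Fin m) (γ : Fin (m + 1) → ℕ) : upd j γ (γ j.castSucc) (γ j.succ) = γ := by
  simp [upd]

lemma upd_swap (j : Fin m) (γ : Fin (m + 1) → ℕ) :
    upd j γ (γ j.succ) (γ j.castSucc) = γ ∘ s j := by
  funext i
  by_cases h1 : i = j.castSucc
  · subst h1; rw [upd_castSucc, Function.comp, s_castSucc]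
  by_cases h2 : i = j.succ
  · subst h2; rw [upd_succ, Function.comp, s_succ]
  rw [upd_of_ne _ _ _ _ _ h1 h2, Function.comp, s_of_ne j i h1 h2]

lemma sum_split (j : Fin m) (F : Fin (m + 1) → ℕ) :
    ∑ i, F i = ∑ i ∈ Finset.univ \ {j.castSucc, j.succ}, F i + (F j.castSucc + F j.succ) := by
  rw [← Finset.sum_pair (castSucc_ne_succ j) (f := F), Finset.sum_sdiff (Finset.subset_univ _)]

lemma D_upd (j : Fin m) (γ : Fin (m + 1) → ℕ) (t w : ℕ) :
    D (upd j γ t w) + (γ j.castSucc + γ j.succ) = D γ + (t + w) := by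
  unfold D
  rw [sum_split j, sum_split j (fun i => γ i), upd_castSucc, upd_succ]
  have : ∑ i ∈ Finset.univ \ {j.castSucc, j.succ}, upd j γ t w i =
      ∑ i ∈ Finset.univ \ {j.castSucc, j.succ}, γ i := by
    refine Finset.sum_congr rfl fun i hi => ?_
    simp only [Finset.mem_sdiff, Finset.mem_univ, true_and, Finset.mem_insert,
      Finset.mem_singleton, not_or] at hi
    exact upd_of_ne _ _ _ _ _ hi.1 hi.2
  omega

lemma Q_upd (j : Fin m) (γ : Fin (m + 1) → ℕ) (t w : ℕ) :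
    Q (upd j γ t w) + (γ j.castSucc ^ 2 + γ j.succ ^ 2) = Q γ + (t ^ 2 + w ^ 2) := by
  unfold Q
  rw [sum_split j, sum_split j (fun i => γ i ^ 2), upd_castSucc, upd_succ]
  have : ∑ i ∈ Finset.univ \ {j.castSucc, j.succ}, upd j γ t w i ^ 2 =
      ∑ i ∈ Finset.univ \ {j.castSucc, j.succ}, γ i ^ 2 := by
    refine Finset.sum_congr rfl fun i hi => ?_
    simp only [Finset.mem_sdiff, Finset.mem_univ, true_and, Finset.mem_insert,
      Finset.mem_singleton, not_or] at hi
    rw [upd_of_ne _ _ _ _ _ hi.1 hi.2]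
  omega

/-- the part of `mono γ` away from positions `j`, `j+1` -/
noncomputable def mrest (j : Fin m) (γ : Fin (m + 1) → ℕ) : Poly m :=
  ∏ i ∈ Finset.univ \ {j.castSucc, j.succ}, X i ^ γ i

lemma sw_mrest (j : Fin m) (γ : Fin (m + 1) → ℕ) : sw j (mrest j γ) = mrest j γ := by
  unfold mrest sw
  rw [map_prod]
  refine Finset.prod_congr rfl fun i hi => ?_
  simp only [Finset.mem_sdiff, Finset.mem_univ, true_and, Finset.mem_insert,
    Finset.mem_singleton, not_or] at hi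
  simp [s_of_ne j i hi.1 hi.2]

lemma mono_upd (j : Fin m) (γ : Fin (m + 1) → ℕ) (t w : ℕ) :
    mono (upd j γ t w) = mrest j γ * (X j.castSucc ^ t * X j.succ ^ w) := by
  unfold mono mrest
  rw [← Finset.prod_sdiff (Finset.subset_univ {j.castSucc, j.succ}),
    Finset.prod_pair (castSucc_ne_succ j), upd_castSucc, upd_succ]
  congr 1
  refine Finset.prod_congr rfl fun i hi => ?_
  simp only [Finset.mem_sdiff, Finset.mem_univ, true_and, Finset.mem_insert,
    Finset.mem_singleton, not_or] at hi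
  rw [upd_of_ne _ _ _ _ _ hi.1 hi.2]

lemma piBar_pow_ge (j : Fin m) (v c : ℕ) :
    piBar j (X j.castSucc ^ (v + c) * X j.succ ^ v : Poly m) =
      ∑ t ∈ Finset.range (c + 1), X j.castSucc ^ (v + t) * X j.succ ^ (v + (c - t)) -
      ∑ t ∈ Finset.range c, X j.castSucc ^ (v + 1 + t) * X j.succ ^ (v + (c - t)) := by
  apply piBar_unique
  have g1 := geom_sum₂_mul (X j.castSucc : Poly m) (X j.succ) (c + 1)
  have g2 := geom_sum₂_mul (X j.castSucc : Poly m) (X j.succ) c
  have h1 : ∑ t ∈ Finset.range (c + 1), (X j.castSucc : Poly m) ^ (v + t) * X j.succ ^ (v + (c - t))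
      = (X j.castSucc ^ v * X j.succ ^ v) *
        ∑ t ∈ Finset.range (c + 1), X j.castSucc ^ t * X j.succ ^ (c + 1 - 1 - t) := by
    rw [Finset.mul_sum]
    refine Finset.sum_congr rfl fun t _ => ?_
    rw [Nat.add_sub_cancel, pow_add, pow_add]; ring
  have h2 : ∑ t ∈ Finset.range c, (X j.castSucc : Poly m) ^ (v + 1 + t) * X j.succ ^ (v + (c - t))
      = (X j.castSucc ^ (v + 1) * X j.succ ^ (v + 1)) *
        ∑ t ∈ Finset.range c, X j.castSucc ^ t * X j.succ ^ (c - 1 - t) := by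
    rw [Finset.mul_sum]
    refine Finset.sum_congr rfl fun t ht => ?_
    rw [Finset.mem_range] at ht
    have : v + (c - t) = (v + 1) + (c - 1 - t) := by omega
    rw [this, pow_add, pow_add _ (v + 1) (c - 1 - t)]; ring
  rw [h1, h2]
  simp only [sw, map_mul, map_pow, rename_X, s_castSucc, s_succ]
  linear_combination (X j.castSucc ^ v * X j.succ ^ v) * g1 -
    (X j.castSucc ^ (v + 1) * X j.succ ^ (v + 1)) * g2

lemma piBar_pow_lt (j : Fin m) (u e : ℕ) :
    piBar j (X j.castSucc ^ u * X j.succ ^ (u + (e + 1)) : Poly m) =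
      ∑ t ∈ Finset.range (e + 1), X j.castSucc ^ (u + 1 + t) * X j.succ ^ (u + 1 + (e - t)) -
      ∑ t ∈ Finset.range e, X j.castSucc ^ (u + 1 + t) * X j.succ ^ (u + (e - t)) := by
  apply piBar_unique
  have g1 := geom_sum₂_mul (X j.castSucc : Poly m) (X j.succ) (e + 1)
  have g2 := geom_sum₂_mul (X j.castSucc : Poly m) (X j.succ) e
  have h1 : ∑ t ∈ Finset.range (e + 1), (X j.castSucc : Poly m) ^ (u + 1 + t) *
        X j.succ ^ (u + 1 + (e - t))
      = (X j.castSucc ^ (u + 1) * X j.succ ^ (u + 1)) *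
        ∑ t ∈ Finset.range (e + 1), X j.castSucc ^ t * X j.succ ^ (e + 1 - 1 - t) := by
    rw [Finset.mul_sum]
    refine Finset.sum_congr rfl fun t _ => ?_
    rw [Nat.add_sub_cancel, pow_add _ (u + 1) t, pow_add _ (u + 1) (e - t)]; ring
  have h2 : ∑ t ∈ Finset.range e, (X j.castSucc : Poly m) ^ (u + 1 + t) * X j.succ ^ (u + (e - t))
      = (X j.castSucc ^ (u + 1) * X j.succ ^ (u + 1)) *
        ∑ t ∈ Finset.range e, X j.castSucc ^ t * X j.succ ^ (e - 1 - t) := by
    rw [Finset.mul_sum]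
    refine Finset.sum_congr rfl fun t ht => ?_
    rw [Finset.mem_range] at ht
    have : u + (e - t) = (u + 1) + (e - 1 - t) := by omega
    rw [this, pow_add _ (u + 1) t, pow_add _ (u + 1) (e - 1 - t)]; ring
  rw [h1, h2]
  simp only [sw, map_mul, map_pow, rename_X, s_castSucc, s_succ]
  linear_combination (X j.castSucc ^ (u + 1) * X j.succ ^ (u + 1)) * g1 -
    (X j.castSucc ^ (u + 1) * X j.succ ^ (u + 1)) * g2

/-- integer span of the monomials satisfying a condition -/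
noncomputable def Sp (C : (Fin (m + 1) → ℕ) → Prop) : Submodule ℤ (Poly m) :=
  Submodule.span ℤ {f | ∃ δ, C δ ∧ f = mono δ}

lemma mono_mem_Sp {C : (Fin (m + 1) → ℕ) → Prop} {δ : Fin (m + 1) → ℕ} (h : C δ) :
    mono δ ∈ Sp C := Submodule.subset_span ⟨δ, h, rfl⟩

lemma Sp_mono {C C' : (Fin (m + 1) → ℕ) → Prop} (h : ∀ δ, C δ → C' δ) : Sp C ≤ Sp C' :=
  Submodule.span_mono (by rintro f ⟨δ, h1, h2⟩; exact ⟨δ, h δ h1, h2⟩)

lemma piBar_Sp {C C' : (Fin (m + 1) → ℕ) → Prop} (j : Fin m)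
    (h : ∀ δ, C δ → piBar j (mono δ) ∈ Sp C') {f : Poly m} (hf : f ∈ Sp C) :
    piBar j f ∈ Sp C' := by
  induction hf using Submodule.span_induction with
  | mem x hx => obtain ⟨δ, h1, rfl⟩ := hx; exact h δ h1
  | zero => rw [piBar_zero]; exact zero_mem _
  | add x y _ _ hx hy => rw [piBar_add]; exact add_mem hx hy
  | smul a x _ hx => rw [piBar_smul]; exact Submodule.smul_mem _ _ hx

lemma coeff_mono (γ : Fin (m + 1) → ℕ) (v : Fin (m + 1) →₀ ℕ) :
    coeff v (mono γ) = if fs γ = v then 1 else 0 := by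
  rw [mono_eq, coeff_monomial]

lemma coeff_Sp {C : (Fin (m + 1) → ℕ) → Prop} {f : Poly m} (hf : f ∈ Sp C)
    (v : Fin (m + 1) →₀ ℕ) (hv : ¬ C v) : coeff v f = 0 := by
  induction hf using Submodule.span_induction with
  | mem x hx =>
    obtain ⟨δ, h1, rfl⟩ := hx
    rw [coeff_mono, if_neg]
    rintro rfl
    exact hv h1
  | zero => simp
  | add x y _ _ hx hy => rw [coeff_add, hx, hy, add_zero]
  | smul a x _ hx => rw [coeff_smul, hx, smul_zero]

/-- condition on the monomials of `π̄_j x^γ`, other than `x^{γ s_j}` -/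
def A0 (K : ℕ) (γ δ : Fin (m + 1) → ℕ) : Prop :=
  (∀ i, δ i ≤ K) ∧ (D γ < D δ ∨ (D δ = D γ ∧ (Q δ < Q γ ∨ δ = γ)))

lemma upd_le (K : ℕ) (j : Fin m) (γ : Fin (m + 1) → ℕ) (hK : ∀ i, γ i ≤ K) (t w : ℕ)
    (ht : t ≤ K) (hw : w ≤ K) : ∀ i, upd j γ t w i ≤ K := by
  intro i
  by_cases h1 : i = j.castSucc
  · subst h1; rw [upd_castSucc]; exact ht
  by_cases h2 : i = j.succ
  · subst h2; rw [upd_succ]; exact hw
  rw [upd_of_ne _ _ _ _ _ h1 h2]; exact hK i

lemma piBar_mono_desc (K : ℕ) (j : Fin m) (γ : Fin (m + 1) → ℕ) (hK : ∀ i, γ i ≤ K)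
    (h : γ j.succ ≤ γ j.castSucc) :
    piBar j (mono γ) - mono (γ ∘ s j) ∈ Sp (A0 K γ) := by
  obtain ⟨c, hc⟩ := Nat.exists_eq_add_of_le h
  set v := γ j.succ with hv
  have hu : γ j.castSucc = v + c := hc
  have hKu := hK j.castSucc
  have e1 : mono γ = mrest j γ * (X j.castSucc ^ (v + c) * X j.succ ^ v) := by
    rw [← mono_upd, ← hu, hv, upd_self]
  rw [e1, piBar_mul_of_sw _ _ _ (sw_mrest j γ), piBar_pow_ge, mul_sub, Finset.mul_sum,
    Finset.mul_sum, Finset.sum_range_succ', ← upd_swap, hu, ← hv, mono_upd, add_zero,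
    Nat.sub_zero, add_sub_right_comm, add_sub_cancel_right]
  refine sub_mem (sum_mem fun t ht => ?_) (sum_mem fun t ht => ?_)
  · rw [Finset.mem_range] at ht
    rw [← mono_upd]
    apply mono_mem_Sp
    refine ⟨upd_le K j γ hK _ _ (by omega) (by omega), Or.inr ?_⟩
    have hD := D_upd j γ (v + (t + 1)) (v + (c - (t + 1)))
    have hQ := Q_upd j γ (v + (t + 1)) (v + (c - (t + 1)))
    rw [hu, ← hv] at hD hQ
    refine ⟨by omega, ?_⟩
    rcases Nat.lt_or_ge (t + 1) c with h1 | h1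
    · left
      obtain ⟨k, hk⟩ := Nat.exists_eq_add_of_lt h1
      have : c - (t + 1) = k + 1 := by omega
      rw [this] at hQ
      have hk' : c = t + k + 2 := by omega
      subst hk'
      rw [this]
      nlinarith [Nat.zero_le (t * k), Nat.zero_le t, Nat.zero_le k]
    · right
      have : t + 1 = c := by omega
      rw [this, Nat.sub_self, add_zero, ← hu, hv, upd_self]
  · rw [Finset.mem_range] at ht
    rw [← mono_upd]
    apply mono_mem_Sp
    refine ⟨upd_le K j γ hK _ _ (by omega) (by omega), Or.inl ?_⟩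
    have hD := D_upd j γ (v + 1 + t) (v + (c - t))
    rw [hu, ← hv] at hD
    omega

lemma piBar_mono_asc (K : ℕ) (j : Fin m) (γ : Fin (m + 1) → ℕ) (hK : ∀ i, γ i ≤ K)
    (h : γ j.castSucc < γ j.succ) :
    piBar j (mono γ) ∈ Sp (A0 K γ) := by
  obtain ⟨e, he⟩ := Nat.exists_eq_add_of_lt h
  set u := γ j.castSucc with hu
  have hv : γ j.succ = u + (e + 1) := he
  have hKv := hK j.succ
  have e1 : mono γ = mrest j γ * (X j.castSucc ^ u * X j.succ ^ (u + (e + 1))) := by
    rw [← mono_upd, ← hv, hu, upd_self]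
  rw [e1, piBar_mul_of_sw _ _ _ (sw_mrest j γ), piBar_pow_lt, mul_sub, Finset.mul_sum,
    Finset.mul_sum]
  refine sub_mem (sum_mem fun t ht => ?_) (sum_mem fun t ht => ?_)
  · rw [Finset.mem_range] at ht
    rw [← mono_upd]
    apply mono_mem_Sp
    refine ⟨upd_le K j γ hK _ _ (by omega) (by omega), Or.inl ?_⟩
    have hD := D_upd j γ (u + 1 + t) (u + 1 + (e - t))
    rw [hv, ← hu] at hD
    omega
  · rw [Finset.mem_range] at ht
    rw [← mono_upd]
    apply mono_mem_Sp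
    refine ⟨upd_le K j γ hK _ _ (by omega) (by omega), Or.inr ?_⟩
    have hD := D_upd j γ (u + 1 + t) (u + (e - t))
    have hQ := Q_upd j γ (u + 1 + t) (u + (e - t))
    rw [hv, ← hu] at hD hQ
    refine ⟨by omega, Or.inl ?_⟩
    obtain ⟨k, hk⟩ := Nat.exists_eq_add_of_lt ht
    have h1 : e - t = k + 1 := by omega
    rw [h1] at hQ ⊢
    have hk' : e = t + k + 1 := by omega
    subst hk'
    nlinarith [Nat.zero_le (t * k), Nat.zero_le t, Nat.zero_le k]

end Pool.Agent.MPce9680
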